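import Pool.Agent.Helper53.MEI.Mom6
import Pool.Agent.Helper22.MEI.Cpd

/-!
# Project MEI (M2): moments for polynomial profiles

Closed numbers for the wall integrals with the profile `c0 + c1 x + c2 x²`; the coupling profile
`ph22 = 15/16 (1 - 4 x²)` and the reduced profile `p1 = (1 ± 14 x + 60 x²)/32 = wn - ph22/2`.
-/

namespace Helper47.MEI.MomP

open Set MeasureTheory Filter Topology Metric
open Helper53.MEI
open Helper80.CW Helper22.Wedge Helper22.Sig Helper14.CW Helper14.MEI2 Helper93.MEI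
open Helper22.MEI (s t FD FD_pos)
open Helper21.Sec Helper21.Mom
open Pool.Agent.Helper95.MEI.Fub (Zp int_cont Zp_meas co_e)
open Pool.Agent.Helper73.MEI
open Helper49.Cpl (ph22 ph22_cont ph22_nonneg dp)
open scoped RealInnerProductSpace ContDiff Real

/-! ### integrals over half of the edge with the factor `x²` -/

theorem int_x2Pu2 : ∫ x in (0 : ℝ)..(1 / 2), x ^ 2 * Pu2 x = 155870207 / 124540416000 := by
  have hd : ∀ x ∈ uIcc (0 : ℝ) (1 / 2), HasDerivAt (fun x : ℝ =>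
      (11617 / 460800) * x ^ 3 +
      (-(423419 / 6912000)) * x ^ 5 +
      (9131 / 19353600) * x ^ 7 +
      (11449 / 1555200) * x ^ 9 +
      (-(8047 / 950400)) * x ^ 11 +
      (203 / 28080) * x ^ 13 +
      (-(1237 / 162000)) * x ^ 15) (x ^ 2 * Pu2 x) x := by
    intro x _
    have k := (((((((hpow 2 (11617 / 460800) x).add (hpow 4 (-(423419 / 6912000)) x)).add (hpow 6 (9131 / 19353600) x)).add (hpow 8 (11449 / 1555200) x)).add (hpow 10 (-(8047 / 950400)) x)).add (hpow 12 (203 / 28080) x)).add (hpow 14 (-(1237 / 162000)) x))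
    refine k.congr_deriv ?_
    unfold Pu2
    push_cast
    ring
  rw [intervalIntegral.integral_eq_sub_of_hasDerivAt hd
    ((by unfold Pu2; fun_prop : Continuous fun x : ℝ => x ^ 2 * Pu2 x).intervalIntegrable _ _)]
  norm_num

theorem int_x2Plo2 : ∫ x in (0 : ℝ)..(1 / 2), x ^ 2 * Plo2 x = 23651 / 19008000 := by
  have hd : ∀ x ∈ uIcc (0 : ℝ) (1 / 2), HasDerivAt (fun x : ℝ =>
      (161 / 6400) * x ^ 3 +
      (-(53089 / 864000)) * x ^ 5 +
      (23 / 14400) * x ^ 7 +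
      (1 / 2160) * x ^ 9 +
      (397 / 29700) * x ^ 11) (x ^ 2 * Plo2 x) x := by
    intro x _
    have k := (((((hpow 2 (161 / 6400) x).add (hpow 4 (-(53089 / 864000)) x)).add (hpow 6 (23 / 14400) x)).add (hpow 8 (1 / 2160) x)).add (hpow 10 (397 / 29700) x))
    refine k.congr_deriv ?_
    unfold Plo2
    push_cast
    ring
  rw [intervalIntegral.integral_eq_sub_of_hasDerivAt hd
    ((by unfold Plo2; fun_prop : Continuous fun x : ℝ => x ^ 2 * Plo2 x).intervalIntegrable _ _)]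
  norm_num

theorem int_x2ZR : ∫ x in (0 : ℝ)..(1 / 2), x ^ 2 * (Zu x * rr x) = 122574428047 / 3396556800000 := by
  have hd : ∀ x ∈ uIcc (0 : ℝ) (1 / 2), HasDerivAt (fun x : ℝ =>
      (675567529 / 2488320000) * x ^ 3 +
      (22716811 / 259200000) * x ^ 5 +
      (-(1497229 / 22680000)) * x ^ 7 +
      (-(640253 / 11664000)) * x ^ 9 +
      (24587 / 405000) * x ^ 11 +
      (19337 / 526500) * x ^ 13 +
      (3721 / 121500) * x ^ 15) (x ^ 2 * (Zu x * rr x)) x := by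
    intro x _
    have k := (((((((hpow 2 (675567529 / 2488320000) x).add (hpow 4 (22716811 / 259200000) x)).add (hpow 6 (-(1497229 / 22680000)) x)).add (hpow 8 (-(640253 / 11664000)) x)).add (hpow 10 (24587 / 405000) x)).add (hpow 12 (19337 / 526500) x)).add (hpow 14 (3721 / 121500) x))
    refine k.congr_deriv ?_
    unfold Zu rr
    push_cast
    ring
  rw [intervalIntegral.integral_eq_sub_of_hasDerivAt hd
    ((by unfold Zu rr; fun_prop : Continuous fun x : ℝ => x ^ 2 * (Zu x * rr x)).intervalIntegrable _ _)]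
  norm_num

/-- the profile -/
noncomputable def pq (c0 c1 c2 : ℝ) (x : ℝ) : ℝ := c0 + c1 * x + c2 * x ^ 2

theorem pq_cont (c0 c1 c2 : ℝ) : Continuous (pq c0 c1 c2) := by unfold pq; fun_prop

/-- even functions against the profile -/
theorem int_pq {E : ℝ → ℝ} (hE : Continuous E) (hev : ∀ x, E (-x) = E x) (c0 c1 c2 : ℝ) :
    ∫ x in (-(1 / 2) : ℝ)..(1 / 2), pq c0 c1 c2 x * E x =
      2 * (c0 * (∫ x in (0 : ℝ)..(1 / 2), E x) + c2 * ∫ x in (0 : ℝ)..(1 / 2), x ^ 2 * E x) := by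
  have hc : Continuous fun x => pq c0 c1 c2 x * E x := (pq_cont _ _ _).mul hE
  have hc2 : Continuous fun x => pq c0 (-c1) c2 x * E x := (pq_cont _ _ _).mul hE
  have hx2 : Continuous fun x : ℝ => x ^ 2 * E x := by fun_prop
  rw [← intervalIntegral.integral_add_adjacent_intervals (b := 0) (hc.intervalIntegrable _ _)
    (hc.intervalIntegrable _ _)]
  have h1 : ∫ x in (-(1 / 2) : ℝ)..0, pq c0 c1 c2 x * E x =
      ∫ x in (0 : ℝ)..(1 / 2), pq c0 (-c1) c2 x * E x := by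
    have h3 := intervalIntegral.integral_comp_neg (a := 0) (b := 1 / 2)
      (fun x => pq c0 c1 c2 x * E x)
    rw [neg_zero] at h3
    rw [← h3]
    refine intervalIntegral.integral_congr fun x _ => ?_
    unfold pq
    rw [hev]
    ring
  rw [h1, ← intervalIntegral.integral_add (hc2.intervalIntegrable _ _)
    (hc.intervalIntegrable _ _), ← intervalIntegral.integral_const_mul,
    ← intervalIntegral.integral_const_mul, ← intervalIntegral.integral_add
    ((hE.const_mul _).intervalIntegrable _ _) ((hx2.const_mul _).intervalIntegrable _ _),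
    ← intervalIntegral.integral_const_mul]
  refine intervalIntegral.integral_congr fun x _ => ?_
  unfold pq
  ring

theorem int_lin2 (c0 c1 c2 A B : ℝ) :
    ∫ x in (-(1 / 2) : ℝ)..(1 / 2), pq c0 c1 c2 x * ((A + B * x) * (1 - x ^ 2 / 2)) =
      2 * (A * (23 / 48 * c0 + 37 / 960 * c2) + B * (37 / 960 * c1)) := by
  have hd : ∀ x ∈ uIcc (-(1 / 2) : ℝ) (1 / 2), HasDerivAt (fun x : ℝ =>
      (c0 * A) * x ^ 1 + ((c0 * B + c1 * A) / 2) * x ^ 2 +
      ((c1 * B + c2 * A - c0 * A / 2) / 3) * x ^ 3 +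
      ((c2 * B - (c0 * B + c1 * A) / 2) / 4) * x ^ 4 +
      (-(c1 * B + c2 * A) / 10) * x ^ 5 + (-(c2 * B) / 12) * x ^ 6)
      (pq c0 c1 c2 x * ((A + B * x) * (1 - x ^ 2 / 2))) x := by
    intro x _
    have k := (((((hpow 0 (c0 * A) x).add (hpow 1 ((c0 * B + c1 * A) / 2) x)).add
      (hpow 2 ((c1 * B + c2 * A - c0 * A / 2) / 3) x)).add
      (hpow 3 ((c2 * B - (c0 * B + c1 * A) / 2) / 4) x)).add
      (hpow 4 (-(c1 * B + c2 * A) / 10) x)).add (hpow 5 (-(c2 * B) / 12) x)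
    refine k.congr_deriv ?_
    unfold pq
    push_cast
    ring
  rw [intervalIntegral.integral_eq_sub_of_hasDerivAt hd
    ((by unfold pq; fun_prop : Continuous fun x : ℝ =>
      pq c0 c1 c2 x * ((A + B * x) * (1 - x ^ 2 / 2))).intervalIntegrable _ _)]
  ring

/-- the excess integral with an even factor -/
theorem int_exq {c0 c2 e τ κ1 : ℝ} (hκ0 : ∀ x : ℝ, 0 ≤ x → x ≤ 1 / 2 → 0 ≤ c0 + c2 * x ^ 2)
    (hκ : ∀ x : ℝ, 1 / 2 - τ ≤ x → x ≤ 1 / 2 → c0 + c2 * x ^ 2 ≤ κ1) (hκ1 : 0 ≤ κ1)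
    (he : 0 ≤ e) (h0 : 0 ≤ τ) (h1 : τ ≤ 3 / 10) :
    c0 * (∫ x in (0 : ℝ)..(1 / 2), Zu x * min (e * rr x) (gg x)) +
      c2 * (∫ x in (0 : ℝ)..(1 / 2), x ^ 2 * (Zu x * min (e * rr x) (gg x))) ≤
      e * (c0 * (3943878660643 / 9340531200000) + c2 * (122574428047 / 3396556800000) -
        0.82 * (c0 * τ + c2 * (τ / 4 - τ ^ 2 / 2 + τ ^ 3 / 3))) + κ1 * gp τ := by
  have cZ := Zu_cont
  have cr := rr_cont
  have cg := gg_cont
  have c3 : Continuous fun x => Zu x * min (e * rr x) (gg x) := by fun_prop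
  have c4 : Continuous fun x : ℝ => x ^ 2 * (Zu x * min (e * rr x) (gg x)) := by fun_prop
  have c5 : Continuous fun x => Zu x * rr x := cZ.mul cr
  have c6 : Continuous fun x : ℝ => x ^ 2 * (Zu x * rr x) := by fun_prop
  have hc : Continuous fun x : ℝ => (c0 + c2 * x ^ 2) * (Zu x * min (e * rr x) (gg x)) := by
    fun_prop
  have hc2 : Continuous fun x : ℝ => (c0 + c2 * x ^ 2) * (Zu x * rr x) := by fun_prop
  have e1 : c0 * (∫ x in (0 : ℝ)..(1 / 2), Zu x * min (e * rr x) (gg x)) +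
      c2 * (∫ x in (0 : ℝ)..(1 / 2), x ^ 2 * (Zu x * min (e * rr x) (gg x))) =
      ∫ x in (0 : ℝ)..(1 / 2), (c0 + c2 * x ^ 2) * (Zu x * min (e * rr x) (gg x)) := by
    rw [← intervalIntegral.integral_const_mul, ← intervalIntegral.integral_const_mul,
      ← intervalIntegral.integral_add ((c3.const_mul _).intervalIntegrable _ _)
        ((c4.const_mul _).intervalIntegrable _ _)]
    refine intervalIntegral.integral_congr fun x _ => ?_
    ring
  have e2 : ∫ x in (0 : ℝ)..(1 / 2), (c0 + c2 * x ^ 2) * (Zu x * rr x) =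
      c0 * (3943878660643 / 9340531200000) + c2 * (122574428047 / 3396556800000) := by
    rw [← int_ZR, ← int_x2ZR, ← intervalIntegral.integral_const_mul,
      ← intervalIntegral.integral_const_mul,
      ← intervalIntegral.integral_add ((c5.const_mul _).intervalIntegrable _ _)
        ((c6.const_mul _).intervalIntegrable _ _)]
    refine intervalIntegral.integral_congr fun x _ => ?_
    ring
  rw [e1, ← intervalIntegral.integral_add_adjacent_intervals (b := 1 / 2 - τ)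
    (hc.intervalIntegrable _ _) (hc.intervalIntegrable _ _)]
  have p1 : ∫ x in (0 : ℝ)..(1 / 2 - τ), (c0 + c2 * x ^ 2) * (Zu x * min (e * rr x) (gg x)) ≤
      e * ∫ x in (0 : ℝ)..(1 / 2 - τ), (c0 + c2 * x ^ 2) * (Zu x * rr x) := by
    rw [← intervalIntegral.integral_const_mul]
    refine intervalIntegral.integral_mono_on (by linarith) (hc.intervalIntegrable _ _)
      ((hc2.const_mul e).intervalIntegrable _ _) fun x hx => ?_
    have hX : |x| ≤ 1 / 2 := abs_le.2 ⟨by linarith [hx.1], by linarith [hx.2]⟩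
    have h2 := mul_le_mul_of_nonneg_left (mul_le_mul_of_nonneg_left
      (min_le_left (e * rr x) (gg x)) (Zu_bd hX).1) (hκ0 x hx.1 (by linarith [hx.2]))
    have e3 : e * ((c0 + c2 * x ^ 2) * (Zu x * rr x)) =
      (c0 + c2 * x ^ 2) * (Zu x * (e * rr x)) := by ring
    rw [e3]
    exact h2
  have p2 : ∫ x in (0 : ℝ)..(1 / 2 - τ), (c0 + c2 * x ^ 2) * (Zu x * rr x) ≤
      c0 * (3943878660643 / 9340531200000) + c2 * (122574428047 / 3396556800000) -
        0.82 * (c0 * τ + c2 * (τ / 4 - τ ^ 2 / 2 + τ ^ 3 / 3)) := by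
    have h2 := intervalIntegral.integral_add_adjacent_intervals (μ := volume)
      (f := fun x : ℝ => (c0 + c2 * x ^ 2) * (Zu x * rr x)) (a := 0) (b := 1 / 2 - τ)
      (c := 1 / 2) (hc2.intervalIntegrable _ _) (hc2.intervalIntegrable _ _)
    rw [e2] at h2
    have hpc : Continuous fun x : ℝ => (0.82 : ℝ) * (c0 + c2 * x ^ 2) := by fun_prop
    have h3 : ∫ x in (1 / 2 - τ : ℝ)..(1 / 2), (0.82 : ℝ) * (c0 + c2 * x ^ 2) ≤
        ∫ x in (1 / 2 - τ : ℝ)..(1 / 2), (c0 + c2 * x ^ 2) * (Zu x * rr x) := by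
      refine intervalIntegral.integral_mono_on (by linarith) (hpc.intervalIntegrable _ _)
        (hc2.intervalIntegrable _ _) fun x hx => ?_
      have h4 : 0 ≤ x := by linarith [hx.1]
      have h5 := ZR_low (abs_le.2 ⟨by linarith [hx.1], hx.2⟩)
        (by rw [abs_of_nonneg h4]; linarith [hx.1])
      have h6 := mul_le_mul_of_nonneg_left h5 (hκ0 x h4 hx.2)
      linarith
    have h7 : ∫ x in (1 / 2 - τ : ℝ)..(1 / 2), (0.82 : ℝ) * (c0 + c2 * x ^ 2) =
        0.82 * (c0 * τ + c2 * (τ / 4 - τ ^ 2 / 2 + τ ^ 3 / 3)) := by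
      have hd : ∀ x ∈ uIcc (1 / 2 - τ : ℝ) (1 / 2), HasDerivAt (fun x : ℝ =>
          (0.82 * c0) * x ^ 1 + (0.82 * c2 / 3) * x ^ 3) ((0.82 : ℝ) * (c0 + c2 * x ^ 2)) x := by
        intro x _
        have k := (hpow 0 (0.82 * c0) x).add (hpow 2 (0.82 * c2 / 3) x)
        refine k.congr_deriv ?_
        push_cast
        ring
      rw [intervalIntegral.integral_eq_sub_of_hasDerivAt hd (hpc.intervalIntegrable _ _)]
      ring
    linarith
  have p3 := int_end (e := e) (τ := τ) (κ := fun x : ℝ => c0 + c2 * x ^ 2) (by fun_prop)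
    (κ1 := κ1) hκ1 (fun x hx1 hx2 => ⟨hκ0 x (by linarith) hx2, hκ x hx1 hx2⟩) h0 h1
  have p5 := mul_le_mul_of_nonneg_left p2 he
  unfold gp
  linarith

theorem JGu_pq {c0 c1 c2 s' τ κ1 : ℝ}
    (hκ0 : ∀ x : ℝ, 0 ≤ x → x ≤ 1 / 2 → 0 ≤ c0 + c2 * x ^ 2)
    (hκ : ∀ x : ℝ, 1 / 2 - τ ≤ x → x ≤ 1 / 2 → c0 + c2 * x ^ 2 ≤ κ1) (hκ1 : 0 ≤ κ1)
    (hs : 0 ≤ s') (h0 : 0 ≤ τ) (h1 : τ ≤ 3 / 10) :
    JGu (pq c0 c1 c2) s' ≤
      √2 * (2 * (c0 * (782457293 / 31135104000) + c2 * (155870207 / 124540416000))) +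
      √2 / 3 * (2 * (s' * (c0 * (3943878660643 / 9340531200000) +
        c2 * (122574428047 / 3396556800000) -
        0.82 * (c0 * τ + c2 * (τ / 4 - τ ^ 2 / 2 + τ ^ 3 / 3))) + κ1 * gp τ)) := by
  have cZ := Zu_cont
  have cr := rr_cont
  have cg := gg_cont
  have cE : Continuous fun x => Zu x * min (s' * rr x) (gg x) := by fun_prop
  unfold JGu
  rw [int_pq cE (fun x => ex_even s' x), int_pq Pu2_cont Pu2_even, int_Pu2h, int_x2Pu2]
  have h2 := mul_le_mul_of_nonneg_left (int_exq hκ0 hκ hκ1 hs h0 h1)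
    (show 0 ≤ √2 / 3 * 2 by positivity)
  linarith

theorem JGl_pq (c0 c1 c2 s1 s2 : ℝ) : JGl (pq c0 c1 c2) s1 s2 =
    √2 * (2 * (c0 * (681479 / 27216000) + c2 * (23651 / 19008000))) -
    √2 / 3 * (2 * ((0.5774 * (s1 + s2)) * (23 / 48 * c0 + 37 / 960 * c2) +
      (s1 - s2) * (37 / 960 * c1))) := by
  unfold JGl
  rw [int_pq Plo2_cont Plo2_even, int_lin2, int_Plo2h, int_x2Plo2]

/-! ### the two profiles -/

theorem ph22_pq : ph22 = pq (15 / 16) 0 (-(15 / 4)) := by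
  funext x
  unfold ph22 pq
  ring

/-- the reduced profile -/
noncomputable def p1 (i : Bool) : ℝ → ℝ := pq (1 / 32) (if i then -(7 / 16) else 7 / 16) (15 / 8)

theorem p1_cont (i : Bool) : Continuous (p1 i) := pq_cont _ _ _

theorem p1_nonneg (i : Bool) (x : ℝ) : 0 ≤ p1 i x := by
  unfold p1 pq
  cases i
  · simp only [Bool.false_eq_true, if_false]
    nlinarith [sq_nonneg (60 * x + 7)]
  · simp only [if_true]
    nlinarith [sq_nonneg (60 * x - 7)]

theorem p1_le (i : Bool) {x : ℝ} (hx : |x| ≤ 1 / 2) : p1 i x ≤ 1 := by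
  obtain ⟨h1, h2⟩ := abs_le.1 hx
  unfold p1 pq
  cases i
  · simp only [Bool.false_eq_true, if_false]
    nlinarith
  · simp only [if_true]
    nlinarith

theorem p1_eq (i : Bool) (x : ℝ) : p1 i x = nn (sg i) x - ph22 x / 2 := by
  unfold p1 pq nn ph22
  cases i
  · simp only [sg, Bool.false_eq_true, if_false]
    ring
  · simp only [sg, if_true]
    ring

theorem wgt_ph : Wgt ph22 (fun _ => ph22) where
  sn _ := by unfold ph22; fun_prop
  hn _ X hX := ⟨ph22_nonneg X hX, by unfold ph22; nlinarith [sq_nonneg X]⟩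
  hl _ := tendsto_const_nhds

theorem wgt_p1 (i : Bool) : Wgt (p1 i) (fun _ => p1 i) where
  sn _ := by unfold p1 pq; fun_prop
  hn _ X hX := ⟨p1_nonneg i X, p1_le i hX⟩
  hl _ := tendsto_const_nhds

theorem num_ph {s' s1 s2 τ : ℝ} (hs' : 0 ≤ s') (h1 : 0 ≤ s1) (h2 : 0 ≤ s2) (t0 : 0 ≤ τ)
    (t1 : τ ≤ 3 / 10) :
    3 / 2 * JGu ph22 s' - 1 / 2 * JGl ph22 s1 s2 ≤
      0.05345 + (0.36843 - 2.1743 * τ ^ 2 + 1.4497 * τ ^ 3) * s' +
      √2 * (15 / 4 * (τ - τ ^ 2) * gp τ) + 0.08294 * (s1 + s2) := by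
  obtain ⟨r0, r1⟩ := r2b
  rw [ph22_pq]
  have k1 := JGu_pq (c0 := 15 / 16) (c1 := 0) (c2 := -(15 / 4)) (s' := s') (τ := τ)
    (κ1 := 15 / 4 * (τ - τ ^ 2)) (fun x h3 h4 => by nlinarith)
    (fun x h3 h4 => by nlinarith) (by nlinarith) hs' t0 t1
  have k2 := JGl_pq (15 / 16) 0 (-(15 / 4)) s1 s2
  have e0 : 0 ≤ s' * τ ^ 2 := by positivity
  have e1 : 0 ≤ s' * τ ^ 3 := by positivity
  have e3 : s' * τ ^ 3 ≤ 3 / 10 * (s' * τ ^ 2) := by
    have := mul_le_mul_of_nonneg_right t1 e0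
    have e4 : s' * τ ^ 3 = τ * (s' * τ ^ 2) := by ring
    rw [e4]
    exact this
  have k4 := mul_le_mul_of_nonneg_right r1 h1
  have k5 := mul_le_mul_of_nonneg_right r1 h2
  have k6 := mul_le_mul_of_nonneg_right r0 e0
  have k7 := mul_le_mul_of_nonneg_right r1 e0
  have k8 := mul_le_mul_of_nonneg_right r1 hs'
  have k9 := mul_le_mul_of_nonneg_right r0 e1
  have k10 := mul_le_mul_of_nonneg_right r1 e1
  rw [k2]
  nlinarith

theorem num_p1 {s' s1 s2 τ : ℝ} (hs' : 0 ≤ s') (h1 : 0 ≤ s1) (h2 : 0 ≤ s2) (t0 : 0 ≤ τ)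
    (t1 : τ ≤ 3 / 10) (i : Bool) :
    3 / 2 * JGu (p1 i) s' - 1 / 2 * JGl (p1 i) s1 s2 ≤
      0.008883 + (0.11436 - 0.5798 * τ + 1.0873 * τ ^ 2 - 0.7248 * τ ^ 3) * s' +
      √2 / 2 * gp τ + 0.0317 * (if i then s2 else s1) + 0.0158 * (if i then s1 else s2) := by
  obtain ⟨r0, r1⟩ := r2b
  unfold p1
  have k1 := JGu_pq (c0 := 1 / 32) (c1 := if i then -(7 / 16) else 7 / 16) (c2 := 15 / 8)
    (s' := s') (τ := τ) (κ1 := 1 / 2) (fun x h3 h4 => by positivity)
    (fun x h3 h4 => by nlinarith) (by norm_num) hs' t0 t1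
  have k2 := JGl_pq (1 / 32) (if i then -(7 / 16) else 7 / 16) (15 / 8) s1 s2
  have e0 : 0 ≤ s' * τ := by positivity
  have e1 : 0 ≤ s' * τ ^ 2 := by positivity
  have e2 : 0 ≤ s' * τ ^ 3 := by positivity
  have k4 := mul_le_mul_of_nonneg_right r1 h1
  have k5 := mul_le_mul_of_nonneg_right r1 h2
  have k4' := mul_le_mul_of_nonneg_right r0 h1
  have k5' := mul_le_mul_of_nonneg_right r0 h2
  have k6 := mul_le_mul_of_nonneg_right r0 e0
  have k7 := mul_le_mul_of_nonneg_right r1 e1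
  have k8 := mul_le_mul_of_nonneg_right r1 hs'
  have k9 := mul_le_mul_of_nonneg_right r0 e2
  rw [k2]
  cases i
  · simp only [Bool.false_eq_true, if_false] at k1 ⊢
    nlinarith
  · simp only [if_true] at k1 ⊢
    nlinarith

end Helper47.MEI.MomP
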