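import Mathlib

/-! MEI (MP_8bdc10), row G: the pure arithmetic of sections 4 - 7 of h75_M1.md. -/

set_option autoImplicit false

namespace Pool.Agent.Helper47.MEI

/-- the product bound (C) -/
theorem prod_bound {T al be IA IB Sf Sg l l' : ℝ} (hl : 0 ≤ l) (hl' : 0 ≤ l')
    (hal : 12.2 * l ≤ al) (hbe : 12.2 * l' ≤ be) (hIA : 0 ≤ IA) (hIB : 0 ≤ IB)
    (hSf : Sf ≤ 0.13) (hSg : Sg ≤ 0.13) (hT : (IA + IB) / 2 ≤ T)
    (hF : 2 * (al * be) ≤ 1.16 * (Sf * IA + Sg * IB)) :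
    986 * (l * l') ≤ T := by
  have h1 : (12.2 * l) * (12.2 * l') ≤ al * be :=
    mul_le_mul hal hbe (by positivity) (le_trans (by positivity) hal)
  have h2 : Sf * IA ≤ 0.13 * IA := mul_le_mul_of_nonneg_right hSf hIA
  have h3 : Sg * IB ≤ 0.13 * IB := mul_le_mul_of_nonneg_right hSg hIB
  have h4 : 0 ≤ l * l' := mul_nonneg hl hl'
  have h5 : (12.2 * l) * (12.2 * l') = 148.84 * (l * l') := by ring
  rw [h5] at h1
  have h6 : 1.16 * (Sf * IA + Sg * IB) ≤ 1.16 * (0.13 * (IA + IB)) := by linarith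
  have h7 : 2 * (148.84 * (l * l')) ≤ 1.16 * (0.13 * (IA + IB)) := by linarith
  have h8 : 2 * (148.84 * (l * l')) ≤ 1.16 * (0.13 * (2 * T)) := by linarith
  linarith

/-- sections 4 - 7, from the upper bounds (U) and the lower bound (C) -/
theorem arith {T l l' v : ℝ} (hl : 0 ≤ l) (hl' : 0 ≤ l') (hv : 0.00053 ≤ v) (hT0 : 0 ≤ T)
    (hU : T ≤ (4.58 - 1 / 2) * (v - l') - (4.32 - 1 / 2) * l)
    (hU' : T ≤ (4.58 - 1 / 2) * (v - l) - (4.32 - 1 / 2) * l')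
    (hC : 986 * (l * l') ≤ T) :
    l + l' ≤ v ∧ (l + l' = v → l = 0 ∨ l' = 0) := by
  have key : v ≤ l + l' → (l = 0 ∨ l' = 0) ∧ T ≤ 0.26 * l ∧ T ≤ 0.26 * l' := by
    intro h
    have h1 : T ≤ 0.26 * l := by nlinarith
    have h2 : T ≤ 0.26 * l' := by nlinarith
    refine ⟨?_, h1, h2⟩
    by_contra hcon
    rw [not_or] at hcon
    have hlp : 0 < l := lt_of_le_of_ne hl (Ne.symm hcon.1)
    have hlp' : 0 < l' := lt_of_le_of_ne hl' (Ne.symm hcon.2)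
    have h3 : 986 * l' ≤ 0.26 := by
      have h5 : (986 * l') * l ≤ 0.26 * l := by
        have : (986 * l') * l = 986 * (l * l') := by ring
        rw [this]
        linarith
      exact le_of_mul_le_mul_right h5 hlp
    have h4 : 986 * l ≤ 0.26 := by
      have h5 : (986 * l) * l' ≤ 0.26 * l' := by
        have : (986 * l) * l' = 986 * (l * l') := by ring
        rw [this]
        linarith
      exact le_of_mul_le_mul_right h5 hlp'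
    linarith
  refine ⟨?_, fun h => (key h.ge).1⟩
  by_contra hcon
  rw [not_le] at hcon
  obtain ⟨h1, h2, h3⟩ := key hcon.le
  have h4 : T < 0.26 * l := by nlinarith
  have h5 : T < 0.26 * l' := by nlinarith
  rcases h1 with h | h
  · rw [h] at h4
    linarith
  · rw [h] at h5
    linarith

/-- **Sections 4 - 7 in raw form.**  `V = V(f)`, `Vs = V(sw f)`, `V0 = V(f0)`, `V1 = V(f1)`, the
same for the flux `Ph = Phi_F` and for the surface integrals `S`; `IA = int A0 dmu`,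
`IB = int B0 dnu`. Conclusion: `V0 + V1 ≤ V + Vs`, with equality only if one of the losses
vanishes. -/
theorem arith_raw {V Vs V0 V1 Ph Phs Ph0 Ph1 Sf Ss S0 S1 al be IA IB : ℝ}
    (h1 : V ≤ V0) (h2 : Vs ≤ V0) (hv : 0.00053 ≤ V0 - V1)
    (hS : Sf + Ss - (S0 + S1) = 2 * (V + Vs - (V0 + V1)))
    (hT0 : Ph0 = S0 / 4) (hT1 : Ph1 = S1 / 4)
    (ha : Ph - Ph0 ≤ -(4.32 * (V0 - V))) (ha' : Phs - Ph0 ≤ -(4.32 * (V0 - Vs)))
    (hb : Phs - Ph1 ≤ 4.58 * (Vs - V1)) (hb' : Ph - Ph1 ≤ 4.58 * (V - V1))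
    (hal : 12.2 * (V0 - V) ≤ al) (hbe : 12.2 * (V0 - Vs) ≤ be)
    (hIA : 0 ≤ IA) (hIB : 0 ≤ IB)
    (hSf : Sf ≤ 0.13) (hSs : Ss ≤ 0.13)
    (hT : (IA + IB) / 2 ≤ (Ph - Sf / 4) + (Phs - Ss / 4))
    (hF : 2 * (al * be) ≤ 1.16 * (Sf * IA + Ss * IB)) :
    V0 + V1 ≤ V + Vs ∧ (V + Vs = V0 + V1 → V = V0 ∨ Vs = V0) := by
  have hC := prod_bound (T := (Ph - Sf / 4) + (Phs - Ss / 4)) (l := V0 - V) (l' := V0 - Vs)
    (by linarith) (by linarith) hal hbe hIA hIB hSf hSs hT hF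
  obtain ⟨h3, h4⟩ := arith (T := (Ph - Sf / 4) + (Phs - Ss / 4)) (l := V0 - V) (l' := V0 - Vs)
    (v := V0 - V1) (by linarith) (by linarith) hv (by linarith) (by linarith) (by linarith) hC
  refine ⟨by linarith, fun h => ?_⟩
  rcases h4 (by linarith) with h5 | h5
  · left; linarith
  · right; linarith

/-- the bound of the surface integrals: `S(f) ≤ S(f0) ≤ 0.13` -/
theorem S_le {Ph Ph0 Sf S0 : ℝ} (hT : 0 ≤ Ph - Sf / 4) (hmono : Ph ≤ Ph0) (hT0 : Ph0 = S0 / 4)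
    (hS0 : S0 ≤ 0.13) : Sf ≤ 0.13 := by linarith

/-- the same with `S(f) ≤ 0.13` derived: all the inputs of the final assembly -/
theorem arith_full {V Vs V0 V1 Ph Phs Ph0 Ph1 Sf Ss S0 S1 al be IA IB : ℝ}
    (h1 : V ≤ V0) (h2 : Vs ≤ V0) (hv : 0.00053 ≤ V0 - V1)
    (hS : Sf + Ss - (S0 + S1) = 2 * (V + Vs - (V0 + V1)))
    (hT0 : Ph0 = S0 / 4) (hT1 : Ph1 = S1 / 4) (hS0 : S0 ≤ 0.13)
    (ha : Ph - Ph0 ≤ -(4.32 * (V0 - V))) (ha' : Phs - Ph0 ≤ -(4.32 * (V0 - Vs)))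
    (hb : Phs - Ph1 ≤ 4.58 * (Vs - V1)) (hb' : Ph - Ph1 ≤ 4.58 * (V - V1))
    (hd : Ph ≤ Ph0) (hd' : Phs ≤ Ph0) (hTf : 0 ≤ Ph - Sf / 4) (hTs : 0 ≤ Phs - Ss / 4)
    (hal : 12.2 * (V0 - V) ≤ al) (hbe : 12.2 * (V0 - Vs) ≤ be)
    (hIA : 0 ≤ IA) (hIB : 0 ≤ IB)
    (hT : (IA + IB) / 2 ≤ (Ph - Sf / 4) + (Phs - Ss / 4))
    (hF : 2 * (al * be) ≤ 1.16 * (Sf * IA + Ss * IB)) :
    V0 + V1 ≤ V + Vs ∧ (V + Vs = V0 + V1 → V = V0 ∨ Vs = V0) :=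
  arith_raw h1 h2 hv hS hT0 hT1 ha ha' hb hb' hal hbe hIA hIB (S_le hTf hd hT0 hS0)
    (S_le hTs hd' hT0 hS0) hT hF

end Pool.Agent.Helper47.MEI
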