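import Pool.Agent.Helper47.MEI.Flux1

namespace Helper47.MEI

open Set Metric MeasureTheory
open Helper80.CW Helper37.FX
open scoped ContDiff Topology RealInnerProductSpace Real

section
variable {f : E3 → ℝ} {c : ℝ}

/-- the integrand before the `t`-integration -/
noncomputable def Hf (f : E3 → ℝ) (G : Fin 3 → E3 → ℝ) (t : ℝ) (x : E3) : ℝ :=
  t ^ 2 * (∑ i, G i (t • gr f x) * x i) * sg2 f x

/-- its derivative in `t` -/
noncomputable def hf (f : E3 → ℝ) (G : Fin 3 → E3 → ℝ) (t : ℝ) (x : E3) : ℝ :=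
  t * (sg2 f x * (t * (∑ i, ∑ l, pd l (G i) (t • gr f x) * pd l f x * x i) +
        2 * (∑ i, G i (t • gr f x) * x i)))

theorem hasDerivAt_Hf {G : Fin 3 → E3 → ℝ} (hG : ∀ i, ContDiff ℝ ∞ (G i)) (x : E3) (t : ℝ) :
    HasDerivAt (fun t => Hf f G t x) (hf f G t x) t := by
  have h1 : ∀ i, HasDerivAt (fun t : ℝ => G i (t • gr f x))
      (∑ l, pd l (G i) (t • gr f x) * pd l f x) t := by
    intro i
    have a1 : HasFDerivAt (G i) (fderiv ℝ (G i) (t • gr f x)) (t • gr f x) :=
      (((hG i).differentiable (by simp)) _).hasFDerivAt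
    have a2 : HasDerivAt (fun t : ℝ => t • gr f x) (gr f x) t := by
      simpa using (hasDerivAt_id t).smul_const (gr f x)
    have a3 := a1.comp_hasDerivAt t a2
    have a4 : fderiv ℝ (G i) (t • gr f x) (gr f x) =
        ∑ l, pd l (G i) (t • gr f x) * pd l f x := by
      rw [fderiv_eq_sum]
      apply Finset.sum_congr rfl
      intro l _
      rw [gr_apply]
      ring
    rw [a4] at a3
    exact a3
  have h2 : HasDerivAt (fun t : ℝ => ∑ i, G i (t • gr f x) * x i)
      (∑ i, (∑ l, pd l (G i) (t • gr f x) * pd l f x) * x i) t :=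
    HasDerivAt.fun_sum (fun i _ => (h1 i).mul_const (x i))
  have h3 : HasDerivAt (fun t : ℝ => t ^ 2) (2 * t) t := by
    simpa using hasDerivAt_pow 2 t
  have h4 := (h3.mul h2).mul_const (sg2 f x)
  have e1 : (2 * t * (∑ i, G i (t • gr f x) * x i) +
      t ^ 2 * (∑ i, (∑ l, pd l (G i) (t • gr f x) * pd l f x) * x i)) * sg2 f x =
      hf f G t x := by
    unfold hf
    simp only [Finset.sum_mul]
    ring
  rw [e1] at h4
  exact h4

theorem cont_gr (hs : Sm f) : Continuous (fun u : sphere (0 : E3) 1 => gr f u) := by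
  rw [continuous_iff_continuousAt]
  intro u
  have hu : (u : E3) ≠ 0 := by
    intro h
    have := u.2
    simp [h] at this
  exact ((contDiffAt_gr hs hu).continuousAt).comp continuous_subtype_val.continuousAt

theorem cont_hf (hs : Sm f) {G : Fin 3 → E3 → ℝ} (hG : ∀ i, ContDiff ℝ ∞ (G i)) :
    Continuous (fun p : sphere (0 : E3) 1 × ℝ => hf f G p.2 p.1) := by
  have c1 : Continuous (fun p : sphere (0 : E3) 1 × ℝ => p.2 • gr f p.1) :=
    continuous_snd.smul ((cont_gr hs).comp continuous_fst)
  have c2 : Continuous (fun p : sphere (0 : E3) 1 × ℝ => sg2 f p.1) :=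
    ((sm_sg2 hs).continuous_sphere).comp continuous_fst
  have c3 : ∀ i, Continuous (fun p : sphere (0 : E3) 1 × ℝ => (p.1 : E3) i) := by
    intro i
    exact ((EuclideanSpace.proj i : E3 →L[ℝ] ℝ).continuous.comp
      (continuous_subtype_val.comp continuous_fst))
  have c4 : ∀ i, Continuous (fun p : sphere (0 : E3) 1 × ℝ => G i (p.2 • gr f p.1)) :=
    fun i => (hG i).continuous.comp c1
  have c5 : ∀ l i, Continuous (fun p : sphere (0 : E3) 1 × ℝ => pd l (G i) (p.2 • gr f p.1)) :=
    fun l i => (contDiff_pd (hG i) l).continuous.comp c1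
  have c6 : ∀ l, Continuous (fun p : sphere (0 : E3) 1 × ℝ => pd l f p.1) :=
    fun l => (((hs.pd l)).continuous_sphere).comp continuous_fst
  unfold hf
  refine continuous_snd.mul (c2.mul ((continuous_snd.mul ?_).add (continuous_const.mul ?_)))
  · exact continuous_finsetSum _ (fun i _ => continuous_finsetSum _
      (fun l _ => ((c5 l i).mul (c6 l)).mul (c3 i)))
  · exact continuous_finsetSum _ (fun i _ => (c4 i).mul (c3 i))

theorem int_hf (hs : Sm f) {G : Fin 3 → E3 → ℝ} (hG : ∀ i, ContDiff ℝ ∞ (G i)) :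
    Integrable (fun p : sphere (0 : E3) 1 × ℝ => hf f G p.2 p.1)
      ((volume : Measure E3).toSphere.prod (volume.restrict (Ioc (0 : ℝ) 1))) := by
  have hc := cont_hf hs hG
  obtain ⟨C, hC⟩ := (isCompact_univ.prod (isCompact_Icc (a := (0 : ℝ)) (b := 1))).exists_bound_of_continuousOn
    (f := fun p : sphere (0 : E3) 1 × ℝ => hf f G p.2 p.1) hc.continuousOn
  refine Integrable.mono' (g := fun _ => C) (integrable_const C) hc.aestronglyMeasurable ?_
  have h1 : ∀ᵐ p : sphere (0 : E3) 1 × ℝ ∂((volume : Measure E3).toSphere.prod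
      (volume.restrict (Ioc (0 : ℝ) 1))), p.2 ∈ Ioc (0 : ℝ) 1 := by
    have h2 : ((volume : Measure E3).toSphere.prod (volume.restrict (Ioc (0 : ℝ) 1))) =
        ((volume : Measure E3).toSphere.prod volume).restrict (univ ×ˢ Ioc (0 : ℝ) 1) := by
      rw [← Measure.prod_restrict, Measure.restrict_univ]
    rw [h2]
    filter_upwards [ae_restrict_mem (MeasurableSet.univ.prod measurableSet_Ioc)] with p hp
    exact hp.2
  filter_upwards [h1] with p hp
  exact hC p ⟨mem_univ _, ⟨hp.1.le, hp.2⟩⟩

theorem compact_Bd (h : SSup f c) : IsCompact (Bd f) := by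
  apply Metric.isCompact_of_isClosed_isBounded
  · have : Bd f = ⋂ z : E3, {y : E3 | ⟪y, z⟫ ≤ f z} := by
      ext y
      simp [Bd]
    rw [this]
    apply isClosed_iInter
    intro z
    exact isClosed_le (by fun_prop) continuous_const
  · rw [isBounded_iff_forall_norm_le]
    refine ⟨c, fun y hy => ?_⟩
    have h1 := hy y
    have h2 := h.width y
    have h3 := h.nonneg (-y)
    rw [real_inner_self_eq_norm_mul_norm] at h1
    have h4 : ‖y‖ * ‖y‖ ≤ c * ‖y‖ := by linarith
    rcases eq_or_lt_of_le (norm_nonneg y) with h5 | h5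
    · rw [← h5]
      exact h.cpos.le
    · exact le_of_mul_le_mul_right h4 h5

/-- **flux theorem** for a smooth body of constant width -/
theorem flux (h : SSup f c) (hp : ∀ x, x ≠ 0 → 0 < f x) {G : Fin 3 → E3 → ℝ}
    (hG : ∀ i, ContDiff ℝ ∞ (G i)) :
    SI (fun x => (∑ i, G i (gr f x) * x i) * sg2 f x) = ∫ y in Bd f, dv G y := by
  have hs := h.sm
  have hk := h.hom
  -- pointwise fundamental theorem
  have h1 : ∀ u : sphere (0 : E3) 1, (∑ i, G i (gr f u) * (u : E3) i) * sg2 f u =
      ∫ t in Ioc (0 : ℝ) 1, hf f G t u := by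
    intro u
    have a1 := intervalIntegral.integral_eq_sub_of_hasDerivAt (a := (0 : ℝ)) (b := 1)
      (f := fun t => Hf f G t u) (f' := fun t => hf f G t u)
      (fun t _ => hasDerivAt_Hf hG u t) (by
        apply Continuous.intervalIntegrable
        exact (cont_hf hs hG).comp (Continuous.prodMk_right u))
    rw [intervalIntegral.integral_of_le zero_le_one] at a1
    rw [a1]
    unfold Hf
    simp
  have h2 : SI (fun x => (∑ i, G i (gr f x) * x i) * sg2 f x) =
      ∫ t in Ioc (0 : ℝ) 1, SI (fun x => hf f G t x) := by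
    have a1 : SI (fun x => (∑ i, G i (gr f x) * x i) * sg2 f x) =
        ∫ u : sphere (0 : E3) 1, (∫ t in Ioc (0 : ℝ) 1, hf f G t u)
          ∂(volume : Measure E3).toSphere := by
      unfold SI
      congr 1
      ext u
      exact h1 u
    rw [a1]
    exact integral_integral_swap (int_hf hs hG)
  have hBc : IsCompact (Bd f) := compact_Bd h
  rw [h2, int_Bd h hp ((contDiff_dv hG).continuous.continuousOn.integrableOn_compact hBc),
    ← integral_Ioc_eq_integral_Ioo]
  apply setIntegral_congr_fun measurableSet_Ioc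
  intro t _
  simp only
  have h3 := flux_t hs hk hG t
  unfold hf
  rw [SI_const_mul, h3]
  ring

end

end Helper47.MEI
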