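import Mathlib

/-!
# Vertex lemma for sorted four-tuples (project MEI, M2, arithmetic)

A sorted tuple `S 0 ≥ S 1 ≥ S 2 ≥ S 3 ≥ 0` with `Xl ≤ ∑ S ≤ X` is a convex combination of the
eight vertices `Vx Xl X e n`, the constant tuples with `n + 1` equal nonzero entries and sum `Xl`
(`e = 0`) or `X` (`e = 1`).  Convex functions of `S` are bounded by the same combination of
their values at the vertices, products of two different entries up to `X ^ 2 / 16`.
-/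

set_option autoImplicit false

namespace Helper47.MEI.Vtx

open Finset

/-- `n + 1` equal entries with sum one -/
noncomputable def U (n a : Fin 4) : ℝ := if a ≤ n then 1 / ((n : ℝ) + 1) else 0

/-- the vertices -/
noncomputable def Vx (Xl X : ℝ) (e : Fin 2) (n a : Fin 4) : ℝ := (if e = 0 then Xl else X) * U n a

theorem U_nonneg (n a : Fin 4) : 0 ≤ U n a := by
  unfold U
  split_ifs
  · positivity
  · exact le_rfl

theorem U_anti {a b : Fin 4} (h : a ≤ b) (n : Fin 4) : U n b ≤ U n a := by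
  unfold U
  split_ifs with h1 h2
  · exact le_rfl
  · exact absurd (h.trans h1) h2
  · positivity
  · exact le_rfl

theorem U_le_one (n a : Fin 4) : U n a ≤ 1 := by
  unfold U
  split_ifs
  · rw [div_le_one (by positivity)]
    have : (0 : ℝ) ≤ (n : ℝ) := by positivity
    linarith
  · norm_num

theorem U_sum (n : Fin 4) : ∑ a, U n a = 1 := by
  fin_cases n <;> simp [U, Fin.sum_univ_four, Fin.le_def] <;> norm_num

theorem Vx_nonneg {Xl X : ℝ} (h0 : 0 ≤ Xl) (h1 : Xl ≤ X) (e : Fin 2) (n a : Fin 4) :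
    0 ≤ Vx Xl X e n a := by
  unfold Vx
  split_ifs
  · exact mul_nonneg h0 (U_nonneg n a)
  · exact mul_nonneg (h0.trans h1) (U_nonneg n a)

theorem Vx_anti {Xl X : ℝ} (h0 : 0 ≤ Xl) (h1 : Xl ≤ X) (e : Fin 2) (n : Fin 4) {a b : Fin 4}
    (h : a ≤ b) : Vx Xl X e n b ≤ Vx Xl X e n a := by
  unfold Vx
  split_ifs
  · exact mul_le_mul_of_nonneg_left (U_anti h n) h0
  · exact mul_le_mul_of_nonneg_left (U_anti h n) (h0.trans h1)

theorem Vx_le {Xl X : ℝ} (h0 : 0 ≤ Xl) (h1 : Xl ≤ X) (e : Fin 2) (n a : Fin 4) :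
    Vx Xl X e n a ≤ X := by
  unfold Vx
  have h2 := U_le_one n a
  have h3 := U_nonneg n a
  split_ifs
  · nlinarith
  · nlinarith

theorem Vx_sum (Xl X : ℝ) (e : Fin 2) (n : Fin 4) :
    ∑ a, Vx Xl X e n a = if e = 0 then Xl else X := by
  unfold Vx
  rw [← Finset.mul_sum, U_sum, mul_one]

/-- weighted averages: the covariance of two variables with `0 ≤ x - y ≤ X` -/
theorem cov {ι : Type*} [Fintype ι] {w x y : ι → ℝ} {X : ℝ} (hw : ∀ p, 0 ≤ w p)
    (h1 : ∑ p, w p = 1) (h2 : ∀ p, 0 ≤ x p - y p) (h3 : ∀ p, x p - y p ≤ X) :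
    (∑ p, w p * x p) * (∑ p, w p * y p) ≤ ∑ p, w p * (x p * y p) + X ^ 2 / 16 := by
  obtain ⟨A, hA⟩ : ∃ A, A = ∑ p, w p * x p := ⟨_, rfl⟩
  obtain ⟨B, hB⟩ : ∃ B, B = ∑ p, w p * y p := ⟨_, rfl⟩
  have e1 : 0 ≤ ∑ p, w p * ((x p + y p) - (A + B)) ^ 2 :=
    Finset.sum_nonneg fun p _ => mul_nonneg (hw p) (sq_nonneg _)
  have e2 : ∑ p, w p * (x p - y p) ^ 2 ≤ ∑ p, X * (w p * (x p - y p)) := by
    refine Finset.sum_le_sum fun p _ => ?_
    have := mul_le_mul_of_nonneg_left (h3 p) (mul_nonneg (hw p) (h2 p))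
    nlinarith
  have e3 : ∑ p, w p * ((x p + y p) - (A + B)) ^ 2 =
      ∑ p, w p * (x p - y p) ^ 2 + 4 * ∑ p, w p * (x p * y p) - (A + B) ^ 2 := by
    have : ∀ p, w p * ((x p + y p) - (A + B)) ^ 2 = w p * (x p - y p) ^ 2 +
        4 * (w p * (x p * y p)) - 2 * (A + B) * (w p * x p) - 2 * (A + B) * (w p * y p) +
        (A + B) ^ 2 * w p := fun p => by ring
    rw [Finset.sum_congr rfl fun p _ => this p, Finset.sum_add_distrib,
      Finset.sum_sub_distrib, Finset.sum_sub_distrib, Finset.sum_add_distrib, ← Finset.mul_sum,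
      ← Finset.mul_sum, ← Finset.mul_sum, ← Finset.mul_sum, h1, ← hA, ← hB]
    ring
  have e4 : ∑ p, X * (w p * (x p - y p)) = X * (A - B) := by
    rw [← Finset.mul_sum]
    congr 1
    rw [hA, hB, ← Finset.sum_sub_distrib]
    exact Finset.sum_congr rfl fun p _ => by ring
  rw [← hA, ← hB]
  nlinarith [sq_nonneg (X - 2 * (A - B))]

/-- **vertex lemma** -/
theorem vtx_gen {S : Fin 4 → ℝ} {Xl X : ℝ} (h01 : S 1 ≤ S 0) (h12 : S 2 ≤ S 1)
    (h23 : S 3 ≤ S 2) (h3 : 0 ≤ S 3) (hXl : 0 ≤ Xl) (hl : Xl ≤ ∑ i, S i)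
    (hu : ∑ i, S i ≤ X) :
    ∃ lam : Fin 2 → Fin 4 → ℝ, (∀ e n, 0 ≤ lam e n) ∧ (∑ e, ∑ n, lam e n = 1) ∧
      ∀ i, S i = ∑ e, ∑ n, lam e n * Vx Xl X e n i := by
  have hsum : ∑ i, S i = S 0 + S 1 + S 2 + S 3 := Fin.sum_univ_four S
  rw [hsum] at hl hu
  obtain ⟨T, hT⟩ : ∃ T, T = S 0 + S 1 + S 2 + S 3 := ⟨_, rfl⟩
  rw [← hT] at hl hu
  have hT0 : 0 ≤ T := hXl.trans hl
  rcases hT0.eq_or_lt with h0 | h0
  · have z3 : S 3 = 0 := by linarith
    have z2 : S 2 = 0 := by linarith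
    have z1 : S 1 = 0 := by linarith
    have z0 : S 0 = 0 := by linarith
    have hX : Xl = 0 := by linarith
    refine ⟨fun e n => if e = 0 ∧ n = 0 then 1 else 0, fun e n => ?_, ?_, fun i => ?_⟩
    · show (0 : ℝ) ≤ if e = 0 ∧ n = 0 then 1 else 0
      split_ifs <;> norm_num
    · simp only [Fin.sum_univ_two, Fin.sum_univ_four]
      norm_num [show (2 : Fin 4) ≠ 0 by decide, show (3 : Fin 4) ≠ 0 by decide]
    · have : S i = 0 := by fin_cases i <;> assumption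
      rw [this, hX]
      simp [Fin.sum_univ_two, Fin.sum_univ_four, Vx]
  · obtain ⟨θ, hθ0, hθ1, hθ⟩ : ∃ θ : ℝ, 0 ≤ θ ∧ θ ≤ 1 ∧ T = (1 - θ) * Xl + θ * X := by
      rcases (hl.trans hu).eq_or_lt with h | h
      · exact ⟨1, zero_le_one, le_rfl, by linarith⟩
      · have h5 : 0 < X - Xl := by linarith
        refine ⟨(T - Xl) / (X - Xl), div_nonneg (by linarith) h5.le,
          (div_le_one h5).2 (by linarith), ?_⟩
        field_simp
        ring
    refine ⟨fun e n => (if e = 0 then 1 - θ else θ) * (![S 0 - S 1, 2 * (S 1 - S 2),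
      3 * (S 2 - S 3), 4 * S 3] n / T), fun e n => ?_, ?_, fun i => ?_⟩
    · refine mul_nonneg ?_ (div_nonneg ?_ hT0)
      · split_ifs <;> linarith
      · fin_cases n <;> simp <;> linarith
    · simp only [Fin.sum_univ_two, Fin.sum_univ_four]
      simp
      field_simp
      rw [hT]
      ring
    · have hne : T ≠ 0 := h0.ne'
      have key : ∀ i : Fin 4, ∑ n : Fin 4, (![S 0 - S 1, 2 * (S 1 - S 2),
          3 * (S 2 - S 3), 4 * S 3] n) * U n i = S i := by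
        intro i
        fin_cases i <;> simp [U, Fin.sum_univ_four, Fin.le_def] <;> ring
      have : ∑ e : Fin 2, ∑ n : Fin 4, (if e = 0 then 1 - θ else θ) * (![S 0 - S 1,
          2 * (S 1 - S 2), 3 * (S 2 - S 3), 4 * S 3] n / T) * Vx Xl X e n i =
          ((1 - θ) * Xl + θ * X) / T * ∑ n : Fin 4, (![S 0 - S 1, 2 * (S 1 - S 2),
          3 * (S 2 - S 3), 4 * S 3] n) * U n i := by
        rw [Fin.sum_univ_two, Finset.mul_sum, ← Finset.sum_add_distrib]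
        refine Finset.sum_congr rfl fun n _ => ?_
        unfold Vx
        simp only [if_true, Fin.isValue, one_ne_zero, if_false]
        ring
      rw [this, key, ← hθ, div_self hne, one_mul]

/-- Jensen for the weights -/
theorem jensen {S : Fin 4 → ℝ} {V : Fin 2 → Fin 4 → Fin 4 → ℝ} {lam : Fin 2 → Fin 4 → ℝ}
    (h0 : ∀ e n, 0 ≤ lam e n) (h1 : ∑ e, ∑ n, lam e n = 1)
    (hS : ∀ i, S i = ∑ e, ∑ n, lam e n * V e n i) {C : Set (Fin 4 → ℝ)} (hV : ∀ e n, V e n ∈ C)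
    {φ : (Fin 4 → ℝ) → ℝ} (hφ : ConvexOn ℝ C φ) :
    φ S ≤ ∑ e, ∑ n, lam e n * φ (V e n) := by
  have hS' : S = ∑ p : Fin 2 × Fin 4, lam p.1 p.2 • V p.1 p.2 := by
    funext i
    rw [Finset.sum_apply, Fintype.sum_prod_type, hS]
    rfl
  have h := hφ.map_sum_le (t := Finset.univ) (w := fun p : Fin 2 × Fin 4 => lam p.1 p.2)
    (p := fun p => V p.1 p.2) (fun p _ => h0 p.1 p.2)
    (by rw [Fintype.sum_prod_type]; exact h1) (fun p _ => hV p.1 p.2)
  rw [← hS', Fintype.sum_prod_type] at h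
  simpa only [smul_eq_mul] using h

/-- **vertex lemma**, with the consequences -/
theorem vtx {S : Fin 4 → ℝ} {Xl X : ℝ} (h01 : S 1 ≤ S 0) (h12 : S 2 ≤ S 1) (h23 : S 3 ≤ S 2)
    (h3 : 0 ≤ S 3) (hXl : 0 ≤ Xl) (hl : Xl ≤ ∑ i, S i) (hu : ∑ i, S i ≤ X) :
    ∃ lam : Fin 2 → Fin 4 → ℝ, (∀ e n, 0 ≤ lam e n) ∧ (∑ e, ∑ n, lam e n = 1) ∧
      (∀ i, S i = ∑ e, ∑ n, lam e n * Vx Xl X e n i) ∧
      (∀ a b, a ≠ b → S a * S b ≤
        ∑ e, ∑ n, lam e n * (Vx Xl X e n a * Vx Xl X e n b) + X ^ 2 / 16) ∧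
      (∀ a, S a ^ 2 ≤ ∑ e, ∑ n, lam e n * Vx Xl X e n a ^ 2) ∧
      (∀ a, S a ^ 3 ≤ ∑ e, ∑ n, lam e n * Vx Xl X e n a ^ 3) ∧
      (∀ (c : ℝ) (d : Fin 4 → ℝ), max 0 (c + ∑ i, d i * S i) ≤
        ∑ e, ∑ n, lam e n * max 0 (c + ∑ i, d i * Vx Xl X e n i)) ∧
      (∀ (C : Set (Fin 4 → ℝ)) (φ : (Fin 4 → ℝ) → ℝ), (∀ e n, Vx Xl X e n ∈ C) →
        ConvexOn ℝ C φ → φ S ≤ ∑ e, ∑ n, lam e n * φ (Vx Xl X e n)) := by
  obtain ⟨lam, g0, g1, gS⟩ := vtx_gen h01 h12 h23 h3 hXl hl hu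
  have hlu : Xl ≤ X := hl.trans hu
  have J : ∀ (C : Set (Fin 4 → ℝ)) (φ : (Fin 4 → ℝ) → ℝ), (∀ e n, Vx Xl X e n ∈ C) →
      ConvexOn ℝ C φ → φ S ≤ ∑ e, ∑ n, lam e n * φ (Vx Xl X e n) :=
    fun C φ hC hφ => jensen g0 g1 gS hC hφ
  have hco : Convex ℝ {v : Fin 4 → ℝ | ∀ i, 0 ≤ v i} := by
    intro x hx y hy s t hs ht _ i
    simp only [Pi.add_apply, Pi.smul_apply, smul_eq_mul]
    exact add_nonneg (mul_nonneg hs (hx i)) (mul_nonneg ht (hy i))
  have hpow : ∀ (m : ℕ) (a : Fin 4), S a ^ m ≤ ∑ e, ∑ n, lam e n * Vx Xl X e n a ^ m := by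
    intro m a
    refine J {v | ∀ i, 0 ≤ v i} (fun v => v a ^ m) (fun e n i => Vx_nonneg hXl hlu e n i)
      ⟨hco, ?_⟩
    intro x hx y hy s t hs ht hst
    have h := (convexOn_pow m).2 (hx a : x a ∈ Set.Ici (0 : ℝ)) (hy a : y a ∈ Set.Ici (0 : ℝ))
      hs ht hst
    simpa using h
  have hcov : ∀ a b, a < b → S a * S b ≤
      ∑ e, ∑ n, lam e n * (Vx Xl X e n a * Vx Xl X e n b) + X ^ 2 / 16 := by
    intro a b hab
    have h := cov (w := fun p : Fin 2 × Fin 4 => lam p.1 p.2)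
      (x := fun p => Vx Xl X p.1 p.2 a) (y := fun p => Vx Xl X p.1 p.2 b) (X := X)
      (fun p => g0 p.1 p.2) (by rw [Fintype.sum_prod_type]; exact g1)
      (fun p => sub_nonneg.2 (Vx_anti hXl hlu p.1 p.2 hab.le))
      (fun p => by
        have h1 := Vx_le hXl hlu p.1 p.2 a
        have h2 := Vx_nonneg hXl hlu p.1 p.2 b
        linarith)
    rw [Fintype.sum_prod_type, Fintype.sum_prod_type, Fintype.sum_prod_type] at h
    rw [gS a, gS b]
    exact h
  refine ⟨lam, g0, g1, gS, ?_, hpow 2, hpow 3, ?_, J⟩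
  · intro a b hab
    rcases lt_or_gt_of_ne hab with h | h
    · exact hcov a b h
    · have h1 := hcov b a h
      rw [mul_comm (S a)]
      refine h1.trans (le_of_eq ?_)
      congr 1
      exact Finset.sum_congr rfl fun e _ => Finset.sum_congr rfl fun n _ => by ring
  · intro c d
    refine J Set.univ (fun v => max 0 (c + ∑ i, d i * v i)) (fun e n => Set.mem_univ _)
      ⟨convex_univ, ?_⟩
    intro x _ y _ s t hs ht hst
    simp only [Pi.add_apply, Pi.smul_apply, smul_eq_mul]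
    have e1 : c + ∑ i, d i * (s * x i + t * y i) = s * (c + ∑ i, d i * x i) +
        t * (c + ∑ i, d i * y i) := by
      have : ∑ i, d i * (s * x i + t * y i) = s * ∑ i, d i * x i + t * ∑ i, d i * y i := by
        rw [Finset.mul_sum, Finset.mul_sum, ← Finset.sum_add_distrib]
        exact Finset.sum_congr rfl fun i _ => by ring
      rw [this]
      have : c = (s + t) * c := by rw [hst, one_mul]
      nlinarith
    rw [e1]
    refine max_le ?_ ?_
    · exact add_nonneg (mul_nonneg hs (le_max_left _ _)) (mul_nonneg ht (le_max_left _ _))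
    · exact add_le_add (mul_le_mul_of_nonneg_left (le_max_right _ _) hs)
        (mul_le_mul_of_nonneg_left (le_max_right _ _) ht)

end Helper47.MEI.Vtx
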