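import Mathlib

/-!
A verified checker for the nonnegativity of a homogeneous form in `(s, t)` (and in `(a, b)`) on
the quadrant: subdivision of the coefficients.
-/

set_option autoImplicit false

namespace Helper47.MEI.Bern

/-- `∑ e(c i) s ^ (n - i) t ^ i` for a list `c` of length `n + 1` -/
noncomputable def E {α : Type} (e : α → ℝ) : List α → ℝ → ℝ → ℝ
  | [], _, _ => 0
  | (c :: l), s, t => e c * s ^ l.length + t * E e l s t

/-- the coefficients of `(2 s + t) ^ k` -/
def pw : ℕ → List ℤ
  | 0 => [1]
  | (k + 1) => List.zipWith (fun a b => a + b) ((pw k).map (fun c => 2 * c) ++ [0]) (0 :: pw k)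

/-- substitution `s := 2 s + t` -/
def sub {α : Type} (add : α → α → α) (smul : ℤ → α → α) (zero : α) : List α → List α
  | [] => []
  | (c :: l) => List.zipWith add ((pw l.length).map (fun k => smul k c))
      (zero :: sub add smul zero l)

theorem pw_length : ∀ k, (pw k).length = k + 1
  | 0 => rfl
  | (k + 1) => by simp [pw, pw_length k]

section

variable {α : Type} {add : α → α → α} {smul : ℤ → α → α} {zero : α} {W : α → Prop} {e : α → ℝ}

theorem E_append (e : α → ℝ) (l : List α) (c : α) (s t : ℝ) :
    E e (l ++ [c]) s t = s * E e l s t + e c * t ^ l.length := by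
  induction l with
  | nil => simp [E]
  | cons d l ih =>
    simp only [List.cons_append, E, ih, List.length_append, List.length_cons, List.length_nil]
    ring

theorem E_reverse (e : α → ℝ) (l : List α) (s t : ℝ) : E e l.reverse s t = E e l t s := by
  induction l with
  | nil => simp [E]
  | cons d l ih =>
    rw [List.reverse_cons, E_append, ih, List.length_reverse]
    simp only [E]
    ring

/-- the operations -/
structure Ops (add : α → α → α) (smul : ℤ → α → α) (zero : α) (W : α → Prop) (e : α → ℝ) :
    Prop where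
  hadd : ∀ a b, W a → W b → W (add a b) ∧ e (add a b) = e a + e b
  hsmul : ∀ k a, W a → W (smul k a) ∧ e (smul k a) = k * e a
  hzero : W zero ∧ e zero = 0

theorem E_zip (h : Ops add smul zero W e) : ∀ (l l' : List α), l.length = l'.length →
    (∀ a ∈ l, W a) → (∀ a ∈ l', W a) → ∀ s t : ℝ,
    E e (List.zipWith add l l') s t = E e l s t + E e l' s t
  | [], [], _, _, _, _, _ => by simp [E]
  | (a :: l), (b :: l'), hl, h1, h2, s, t => by
    have hl' : l.length = l'.length := by simpa using hl
    have ih := E_zip h l l' hl' (fun a ha => h1 a (List.mem_cons_of_mem _ ha))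
      (fun a ha => h2 a (List.mem_cons_of_mem _ ha)) s t
    simp only [List.zipWith_cons_cons, E, ih, List.length_zipWith,
      (h.hadd a b (h1 a (List.mem_cons_self)) (h2 b (List.mem_cons_self))).2, hl', min_self]
    ring
  | [], (b :: l'), hl, _, _, _, _ => by simp at hl
  | (a :: l), [], hl, _, _, _, _ => by simp at hl

theorem W_zip (h : Ops add smul zero W e) : ∀ (l l' : List α),
    (∀ a ∈ l, W a) → (∀ a ∈ l', W a) → ∀ a ∈ List.zipWith add l l', W a
  | [], l', _, _ => by simp
  | (a :: l), [], _, _ => by simp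
  | (a :: l), (b :: l'), h1, h2 => by
    intro x hx
    rw [List.zipWith_cons_cons, List.mem_cons] at hx
    rcases hx with rfl | hx
    · exact (h.hadd a b (h1 a List.mem_cons_self) (h2 b List.mem_cons_self)).1
    · exact W_zip h l l' (fun a ha => h1 a (List.mem_cons_of_mem _ ha))
        (fun a ha => h2 a (List.mem_cons_of_mem _ ha)) x hx

theorem E_mul (e e' : α → ℝ) (k : ℝ) (f : α → α) (l : List α) (hf : ∀ a ∈ l, e (f a) = k * e' a)
    (s t : ℝ) : E e (l.map f) s t = k * E e' l s t := by
  induction l with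
  | nil => simp [E]
  | cons a l ih =>
    simp only [List.map_cons, E, List.length_map, hf a List.mem_cons_self,
      ih fun a ha => hf a (List.mem_cons_of_mem _ ha)]
    ring

/-- integers -/
theorem opsZ : Ops (fun a b : ℤ => a + b) (fun k a => k * a) 0 (fun _ => True)
    (fun a => (a : ℝ)) := by
  refine ⟨fun a b _ _ => ⟨trivial, by push_cast; rfl⟩, fun k a _ => ⟨trivial, by push_cast; rfl⟩,
    trivial, by simp⟩

theorem E_pw : ∀ (k : ℕ) (s t : ℝ), E (fun a : ℤ => (a : ℝ)) (pw k) s t = (2 * s + t) ^ k
  | 0, s, t => by simp [pw, E]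
  | (k + 1), s, t => by
    have h1 := E_zip opsZ ((pw k).map (fun c => 2 * c) ++ [0]) (0 :: pw k)
      (by simp) (fun _ _ => trivial) (fun _ _ => trivial) s t
    unfold pw
    rw [h1, E_append, E_mul (fun a : ℤ => (a : ℝ)) (fun a : ℤ => (a : ℝ)) 2 (fun c => 2 * c) (pw k)
      (fun a _ => by push_cast; rfl)]
    simp only [E, E_pw k]
    push_cast
    ring

theorem E_const (h : Ops add smul zero W e) (c : α) (hc : W c) (l : List ℤ) (s t : ℝ) :
    E e (l.map (fun k => smul k c)) s t = e c * E (fun a : ℤ => (a : ℝ)) l s t := by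
  induction l with
  | nil => simp [E]
  | cons a l ih =>
    simp only [List.map_cons, E, List.length_map, ih, (h.hsmul a c hc).2]
    ring

theorem sub_length : ∀ l : List α, (sub add smul zero l).length = l.length
  | [] => rfl
  | (c :: l) => by simp [sub, sub_length l, pw_length]

theorem sub_W (h : Ops add smul zero W e) : ∀ l : List α, (∀ a ∈ l, W a) →
    ∀ a ∈ sub add smul zero l, W a
  | [], _ => by simp [sub]
  | (c :: l), hl => by
    unfold sub
    refine W_zip h _ _ ?_ ?_
    · intro a ha
      rw [List.mem_map] at ha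
      obtain ⟨k, _, rfl⟩ := ha
      exact (h.hsmul k c (hl c List.mem_cons_self)).1
    · intro a ha
      rw [List.mem_cons] at ha
      rcases ha with rfl | ha
      · exact h.hzero.1
      · exact sub_W h l (fun a ha => hl a (List.mem_cons_of_mem _ ha)) a ha

theorem E_sub (h : Ops add smul zero W e) : ∀ (l : List α), (∀ a ∈ l, W a) → ∀ s t : ℝ,
    E e (sub add smul zero l) s t = E e l (2 * s + t) t
  | [], _, _, _ => by simp [sub, E]
  | (c :: l), hl, s, t => by
    have hl' : ∀ a ∈ l, W a := fun a ha => hl a (List.mem_cons_of_mem _ ha)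
    have hc : W c := hl c List.mem_cons_self
    have h1 := E_zip h ((pw l.length).map (fun k => smul k c)) (zero :: sub add smul zero l)
      (by simp [pw_length, sub_length]) (by
        intro a ha
        rw [List.mem_map] at ha
        obtain ⟨k, _, rfl⟩ := ha
        exact (h.hsmul k c hc).1) (by
        intro a ha
        rw [List.mem_cons] at ha
        rcases ha with rfl | ha
        · exact h.hzero.1
        · exact sub_W h l hl' a ha) s t
    unfold sub
    rw [h1, E_const h c hc, E_pw]
    simp only [E, E_sub h l hl' s t, h.hzero.2]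
    ring

end

/-! ## Two variables -/

/-- integer rows -/
abbrev sZ : List ℤ → List ℤ := sub (fun a b : ℤ => a + b) (fun k a => k * a) 0

/-- substitution in the rows -/
abbrev sR (n : ℕ) : List (List ℤ) → List (List ℤ) :=
  sub (fun a b : List ℤ => List.zipWith (fun x y => x + y) a b) (fun k a => a.map (fun x => k * x))
    (List.replicate n 0)

/-- left half in `(s, t)` -/
def xL (M : List (List ℤ)) : List (List ℤ) := M.map sZ
/-- right half in `(s, t)` -/
def xR (M : List (List ℤ)) : List (List ℤ) := M.map fun R => (sZ R.reverse).reverse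
/-- left half in `(a, b)` -/
def vL (n : ℕ) (M : List (List ℤ)) : List (List ℤ) := sR n M
/-- right half in `(a, b)` -/
def vR (n : ℕ) (M : List (List ℤ)) : List (List ℤ) := (sR n M.reverse).reverse

/-- the form in four variables -/
noncomputable def E2 (M : List (List ℤ)) (s t a b : ℝ) : ℝ :=
  E (fun R : List ℤ => E (fun c : ℤ => (c : ℝ)) R s t) M a b

/-- all coefficients are nonnegative -/
def nn (M : List (List ℤ)) : Bool := M.all fun R => R.all fun c => decide (0 ≤ c)

/-- the checker -/
def chk (n : ℕ) : ℕ → Bool → List (List ℤ) → Bool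
  | 0, _, M => nn M
  | (k + 1), true, M => nn M || (chk n k false (xL M) && chk n k false (xR M))
  | (k + 1), false, M => nn M || (chk n k true (vL n M) && chk n k true (vR n M))

theorem E_nonneg {α : Type} (e : α → ℝ) (l : List α) (h : ∀ a ∈ l, 0 ≤ e a) {s t : ℝ}
    (hs : 0 ≤ s) (ht : 0 ≤ t) : 0 ≤ E e l s t := by
  induction l with
  | nil => simp [E]
  | cons c l ih =>
    simp only [E]
    have h1 := h c List.mem_cons_self
    have h2 := ih fun a ha => h a (List.mem_cons_of_mem _ ha)
    positivity

theorem nn_nonneg {M : List (List ℤ)} (h : nn M = true) {s t a b : ℝ} (hs : 0 ≤ s) (ht : 0 ≤ t)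
    (ha : 0 ≤ a) (hb : 0 ≤ b) : 0 ≤ E2 M s t a b := by
  unfold nn at h
  rw [List.all_eq_true] at h
  refine E_nonneg _ M (fun R hR => ?_) ha hb
  have h1 := h R hR
  rw [List.all_eq_true] at h1
  refine E_nonneg _ R (fun c hc => ?_) hs ht
  have h2 := h1 c hc
  exact_mod_cast of_decide_eq_true h2

theorem E_congr {α β : Type} (e : α → ℝ) (e' : β → ℝ) (f : α → β) (l : List α)
    (hf : ∀ a ∈ l, e' (f a) = e a) (s t : ℝ) : E e' (l.map f) s t = E e l s t := by
  induction l with
  | nil => simp [E]
  | cons a l ih =>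
    simp only [List.map_cons, E, List.length_map, hf a List.mem_cons_self,
      ih fun a ha => hf a (List.mem_cons_of_mem _ ha)]

theorem E_sZ (R : List ℤ) (s t : ℝ) : E (fun c : ℤ => (c : ℝ)) (sZ R) s t =
    E (fun c : ℤ => (c : ℝ)) R (2 * s + t) t :=
  E_sub opsZ R (fun _ _ => trivial) s t

theorem E2_xL (M : List (List ℤ)) (s t a b : ℝ) :
    E2 (xL M) s t a b = E2 M (2 * s + t) t a b :=
  E_congr _ _ _ M (fun R _ => E_sZ R s t) a b

theorem E2_xR (M : List (List ℤ)) (s t a b : ℝ) :
    E2 (xR M) s t a b = E2 M s (2 * t + s) a b := by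
  refine E_congr _ _ _ M (fun R _ => ?_) a b
  rw [E_reverse, E_sZ, E_reverse]

/-- rows of length `n` -/
def WR (n : ℕ) (R : List ℤ) : Prop := R.length = n

theorem opsR (n : ℕ) (s t : ℝ) :
    Ops (fun a b : List ℤ => List.zipWith (fun x y => x + y) a b)
      (fun k a => a.map (fun x => k * x)) (List.replicate n 0) (WR n)
      (fun R => E (fun c : ℤ => (c : ℝ)) R s t) := by
  refine ⟨fun a b ha hb => ⟨?_, ?_⟩, fun k a ha => ⟨?_, ?_⟩, ?_, ?_⟩
  · unfold WR at *
    simp [ha, hb]
  · exact E_zip opsZ a b (by unfold WR at *; rw [ha, hb]) (fun _ _ => trivial)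
      (fun _ _ => trivial) s t
  · unfold WR at *
    simp [ha]
  · exact E_mul _ _ (k : ℝ) _ a (fun x _ => by push_cast; rfl) s t
  · simp [WR]
  · have : ∀ n : ℕ, E (fun c : ℤ => (c : ℝ)) (List.replicate n (0 : ℤ)) s t = 0 := by
      intro n
      induction n with
      | zero => simp [E]
      | succ n ih => simp [List.replicate_succ, E, ih]
    exact this n

theorem E2_vL (n : ℕ) (M : List (List ℤ)) (hM : ∀ R ∈ M, WR n R) (s t a b : ℝ) :
    E2 (vL n M) s t a b = E2 M s t (2 * a + b) b :=
  E_sub (opsR n s t) M hM a b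

theorem E2_vR (n : ℕ) (M : List (List ℤ)) (hM : ∀ R ∈ M, WR n R) (s t a b : ℝ) :
    E2 (vR n M) s t a b = E2 M s t a (2 * b + a) := by
  unfold vR E2
  rw [E_reverse, E_sub (opsR n s t) M.reverse (fun R hR => hM R (List.mem_reverse.1 hR)),
    E_reverse]

theorem xL_W (n : ℕ) (M : List (List ℤ)) (hM : ∀ R ∈ M, WR n R) : ∀ R ∈ xL M, WR n R := by
  intro R hR
  obtain ⟨R', h1, rfl⟩ := List.mem_map.1 hR
  have := hM R' h1
  unfold WR at *
  rw [sub_length, this]

theorem xR_W (n : ℕ) (M : List (List ℤ)) (hM : ∀ R ∈ M, WR n R) : ∀ R ∈ xR M, WR n R := by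
  intro R hR
  obtain ⟨R', h1, rfl⟩ := List.mem_map.1 hR
  have := hM R' h1
  unfold WR at *
  rw [List.length_reverse, sub_length, List.length_reverse, this]

theorem vL_W (n : ℕ) (M : List (List ℤ)) (hM : ∀ R ∈ M, WR n R) : ∀ R ∈ vL n M, WR n R :=
  sub_W (opsR n 0 0) M hM

theorem vR_W (n : ℕ) (M : List (List ℤ)) (hM : ∀ R ∈ M, WR n R) : ∀ R ∈ vR n M, WR n R := by
  intro R hR
  exact sub_W (opsR n 0 0) M.reverse (fun R hR => hM R (List.mem_reverse.1 hR)) R
    (List.mem_reverse.1 hR)

/-- **soundness of the checker** -/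
theorem chk_sound (n : ℕ) : ∀ (k : ℕ) (d : Bool) (M : List (List ℤ)), (∀ R ∈ M, WR n R) →
    chk n k d M = true → ∀ s t a b : ℝ, 0 ≤ s → 0 ≤ t → 0 ≤ a → 0 ≤ b → 0 ≤ E2 M s t a b
  | 0, _, M, _, h, s, t, a, b, hs, ht, ha, hb => nn_nonneg h hs ht ha hb
  | (k + 1), true, M, hM, h, s, t, a, b, hs, ht, ha, hb => by
    unfold chk at h
    rw [Bool.or_eq_true, Bool.and_eq_true] at h
    rcases h with h | ⟨h1, h2⟩
    · exact nn_nonneg h hs ht ha hb
    · rcases le_total t s with hts | hts
      · have h3 := chk_sound n k false (xL M) (xL_W n M hM) h1 ((s - t) / 2) t a b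
          (by linarith) ht ha hb
        rw [E2_xL] at h3
        have e : 2 * ((s - t) / 2) + t = s := by ring
        rwa [e] at h3
      · have h3 := chk_sound n k false (xR M) (xR_W n M hM) h2 s ((t - s) / 2) a b
          hs (by linarith) ha hb
        rw [E2_xR] at h3
        have e : 2 * ((t - s) / 2) + s = t := by ring
        rwa [e] at h3
  | (k + 1), false, M, hM, h, s, t, a, b, hs, ht, ha, hb => by
    unfold chk at h
    rw [Bool.or_eq_true, Bool.and_eq_true] at h
    rcases h with h | ⟨h1, h2⟩
    · exact nn_nonneg h hs ht ha hb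
    · rcases le_total b a with hts | hts
      · have h3 := chk_sound n k true (vL n M) (vL_W n M hM) h1 s t ((a - b) / 2) b
          hs ht (by linarith) hb
        rw [E2_vL n M hM] at h3
        have e : 2 * ((a - b) / 2) + b = a := by ring
        rwa [e] at h3
      · have h3 := chk_sound n k true (vR n M) (vR_W n M hM) h2 s t a ((b - a) / 2)
          hs ht ha (by linarith)
        rw [E2_vR n M hM] at h3
        have e : 2 * ((b - a) / 2) + a = b := by ring
        rwa [e] at h3

end Helper47.MEI.Bern
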