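import Pool.Agent.Helper37.FX.CV

namespace Helper47.MEI

open Set Metric MeasureTheory
open Helper80.CW Helper37.FX
open scoped ContDiff Topology RealInnerProductSpace Real

theorem cof_id {x0 x1 x2 a b d g k m : ℝ} (hx : x0 ^ 2 + x1 ^ 2 + x2 ^ 2 = 1)
    (e0 : a * x0 + b * x1 + d * x2 = 0) (e1 : b * x0 + g * x1 + k * x2 = 0)
    (e2 : d * x0 + k * x1 + m * x2 = 0) :
    (g * m - k ^ 2) = ((a * g - b ^ 2) + (a * m - d ^ 2) + (g * m - k ^ 2)) * x0 ^ 2 ∧
    (a * m - d ^ 2) = ((a * g - b ^ 2) + (a * m - d ^ 2) + (g * m - k ^ 2)) * x1 ^ 2 ∧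
    (a * g - b ^ 2) = ((a * g - b ^ 2) + (a * m - d ^ 2) + (g * m - k ^ 2)) * x2 ^ 2 ∧
    (d * k - b * m) = ((a * g - b ^ 2) + (a * m - d ^ 2) + (g * m - k ^ 2)) * (x0 * x1) ∧
    (b * k - g * d) = ((a * g - b ^ 2) + (a * m - d ^ 2) + (g * m - k ^ 2)) * (x0 * x2) ∧
    (b * d - a * k) = ((a * g - b ^ 2) + (a * m - d ^ 2) + (g * m - k ^ 2)) * (x1 * x2) := by
  refine ⟨?_, ?_, ?_, ?_, ?_, ?_⟩ <;> grind

/-- the matrix identity behind the Piola field -/
theorem mat_id {x : Fin 3 → ℝ} {A : Fin 3 → Fin 3 → ℝ} (hx : ∑ i, x i ^ 2 = 1)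
    (hA : ∀ i j, A i j = A j i) (h0 : ∀ i, ∑ j, x j * A j i = 0) (l b : Fin 3) :
    ∑ a, A a l * ((if a = b then 1 else 0) * (∑ i, A i i) - A a b) =
      (((∑ i, A i i) ^ 2 - ∑ i, ∑ j, A j i ^ 2) / 2) * ((if l = b then 1 else 0) - x l * x b) := by
  have e0 := h0 0
  have e1 := h0 1
  have e2 := h0 2
  rw [Fin.sum_univ_three] at hx e0 e1 e2
  rw [hA 1 0, hA 2 0] at e0
  rw [hA 2 1] at e1
  have h := cof_id (x0 := x 0) (x1 := x 1) (x2 := x 2) (a := A 0 0) (b := A 0 1) (d := A 0 2)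
    (g := A 1 1) (k := A 1 2) (m := A 2 2) hx (by linarith) (by linarith) (by linarith)
  obtain ⟨h1, h2, h3, h4, h5, h6⟩ := h
  simp only [Fin.sum_univ_three]
  rw [hA 1 0, hA 2 0, hA 2 1]
  fin_cases l <;> fin_cases b <;> simp [hA 1 0, hA 2 0, hA 2 1]
  · linear_combination -h1
  · linear_combination -h4
  · linear_combination -h5
  · linear_combination -h4
  · linear_combination -h2
  · linear_combination -h6
  · linear_combination -h5
  · linear_combination -h6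
  · linear_combination -h3

theorem alg_key {x p G : Fin 3 → ℝ} {A D : Fin 3 → Fin 3 → ℝ} {f t : ℝ}
    (hx : ∑ i, x i ^ 2 = 1)
    (hA : ∀ i j, A i j = A j i) (h0 : ∀ i, ∑ j, x j * A j i = 0) (hp : ∑ i, x i * p i = f) :
    ∑ a, ∑ b, ((if a = b then 1 else 0) * (∑ i, A i i) - A a b) *
      ((∑ i, ((t * ∑ l, D i l * A a l) * x i + G i * (if a = i then 1 else 0))) * p b +
      (∑ i, G i * x i) * A a b - (p a * G b + f * (t * ∑ l, D b l * A a l))) =
    (((∑ i, A i i) ^ 2 - ∑ i, ∑ j, A j i ^ 2) / 2) *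
      (t * (∑ i, ∑ l, D i l * p l * x i) + 2 * (∑ i, G i * x i) - f * (t * ∑ i, D i i)) := by
  have M := mat_id hx hA h0
  have m00 := M 0 0
  have m01 := M 0 1
  have m02 := M 0 2
  have m10 := M 1 0
  have m11 := M 1 1
  have m12 := M 1 2
  have m20 := M 2 0
  have m21 := M 2 1
  have m22 := M 2 2
  clear M
  simp only [Fin.sum_univ_three, Fin.isValue] at hp m00 m01 m02 m10 m11 m12 m20 m21 m22 ⊢
  simp only [hA 1 0, hA 2 0, hA 2 1] at *
  simp only [Fin.isValue, if_true, zero_ne_one, one_ne_zero, if_false, Fin.reduceEq] at m00 m01 m02 m10 m11 m12 m20 m21 m22 ⊢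
  linear_combination (t * (x 0 * D 0 0 + x 1 * D 1 0 + x 2 * D 2 0) * p 0 - f * t * D 0 0) * m00 +
    (t * (x 0 * D 0 0 + x 1 * D 1 0 + x 2 * D 2 0) * p 1 - f * t * D 1 0) * m01 +
    (t * (x 0 * D 0 0 + x 1 * D 1 0 + x 2 * D 2 0) * p 2 - f * t * D 2 0) * m02 +
    (t * (x 0 * D 0 1 + x 1 * D 1 1 + x 2 * D 2 1) * p 0 - f * t * D 0 1) * m10 +
    (t * (x 0 * D 0 1 + x 1 * D 1 1 + x 2 * D 2 1) * p 1 - f * t * D 1 1) * m11 +
    (t * (x 0 * D 0 1 + x 1 * D 1 1 + x 2 * D 2 1) * p 2 - f * t * D 2 1) * m12 +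
    (t * (x 0 * D 0 2 + x 1 * D 1 2 + x 2 * D 2 2) * p 0 - f * t * D 0 2) * m20 +
    (t * (x 0 * D 0 2 + x 1 * D 1 2 + x 2 * D 2 2) * p 1 - f * t * D 1 2) * m21 +
    (t * (x 0 * D 0 2 + x 1 * D 1 2 + x 2 * D 2 2) * p 2 - f * t * D 2 2) * m22 -
    t * ((A 0 0 + A 1 1 + A 2 2) ^ 2 - (A 0 0 ^ 2 + A 0 1 ^ 2 + A 0 2 ^ 2 +
      (A 0 1 ^ 2 + A 1 1 ^ 2 + A 1 2 ^ 2) + (A 0 2 ^ 2 + A 1 2 ^ 2 + A 2 2 ^ 2))) / 2 *
      (x 0 * D 0 0 * x 0 + x 0 * D 0 1 * x 1 + x 0 * D 0 2 * x 2 +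
       x 1 * D 1 0 * x 0 + x 1 * D 1 1 * x 1 + x 1 * D 1 2 * x 2 +
       x 2 * D 2 0 * x 0 + x 2 * D 2 1 * x 1 + x 2 * D 2 2 * x 2) * hp

section
variable {f : E3 → ℝ} {c : ℝ}

/-- the divergence of a field given by its components -/
noncomputable def dv (G : Fin 3 → E3 → ℝ) (y : E3) : ℝ := ∑ i, pd i (G i) y

/-- the cofactor type matrix -/
noncomputable def Kf (f : E3 → ℝ) (a b : Fin 3) (x : E3) : ℝ :=
  (if a = b then 1 else 0) * lap f x - pd a (pd b f) x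

/-- the auxiliary field -/
noncomputable def Zf (f : E3 → ℝ) (G : Fin 3 → E3 → ℝ) (t : ℝ) (b : Fin 3) (x : E3) : ℝ :=
  (∑ i, G i (t • gr f x) * x i) * pd b f x - f x * G b (t • gr f x)

theorem sm_sg2 (hs : Sm f) : Sm (sg2 f) := by
  intro x hx
  exact ((hs.lap.pow 2).sub hs.hs2 x hx).div_const 2

theorem sm_Kf (hs : Sm f) (a b : Fin 3) : Sm (Kf f a b) :=
  ((Sm.const _).mul hs.lap).sub ((hs.pd b).pd a)

theorem hom_Kf (hs : Sm f) (hk : Hom 1 f) (a b : Fin 3) : Hom (-1) (Kf f a b) := by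
  have h1 := hk.lap hs
  have h2 := (hk.pd hs b).pd (hs.pd b) a
  norm_num at h1 h2
  exact (Hom.const_mul _ h1).sub h2

theorem div_Kf (hs : Sm f) (b : Fin 3) {x : E3} (hx : x ≠ 0) :
    ∑ a, pd a (Kf f a b) x = 0 := by
  have h1 : ∀ a, pd a (Kf f a b) x =
      (if a = b then 1 else 0) * pd a (lap f) x - pd a (pd a (pd b f)) x := by
    intro a
    unfold Kf
    rw [pd_sub ((Sm.const _).mul hs.lap) ((hs.pd b).pd a) a hx, pd_const_mul _ hs.lap a hx]
  simp only [h1]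
  rw [Finset.sum_sub_distrib, pd_lap hs b hx]
  simp

theorem contDiffAt_gr (hs : Sm f) {x : E3} (hx : x ≠ 0) : ContDiffAt ℝ ∞ (gr f) x := by
  rw [contDiffAt_euclidean]
  intro i
  exact (hs.pd i) x hx

theorem sm_comp (hs : Sm f) {g : E3 → ℝ} (hg : ContDiff ℝ ∞ g) (t : ℝ) :
    Sm (fun x => g (t • gr f x)) := by
  intro x hx
  exact hg.contDiffAt.comp x ((contDiffAt_gr hs hx).const_smul t)

theorem gr_hom (hs : Sm f) (hk : Hom 1 f) {r : ℝ} (hr : 0 < r) {x : E3} (hx : x ≠ 0) :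
    gr f (r • x) = gr f x := by
  ext i
  rw [gr_apply, gr_apply]
  have := hk.pd hs i r hr x hx
  simpa using this

theorem hom_comp (hs : Sm f) (hk : Hom 1 f) (g : E3 → ℝ) (t : ℝ) :
    Hom 0 (fun x => g (t • gr f x)) := by
  intro r hr x hx
  simp only
  rw [gr_hom hs hk hr hx]
  simp

theorem pd_comp (hs : Sm f) {g : E3 → ℝ} (hg : ContDiff ℝ ∞ g) (t : ℝ) (a : Fin 3) {x : E3}
    (hx : x ≠ 0) :
    pd a (fun x => g (t • gr f x)) x = t * ∑ l, pd l g (t • gr f x) * pd a (pd l f) x := by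
  have h1 : HasFDerivAt g (fderiv ℝ g (t • gr f x)) (t • gr f x) :=
    ((hg.differentiable (by simp)) _).hasFDerivAt
  have h2 : HasFDerivAt (gr f) (fderiv ℝ (gr f) x) x :=
    ((contDiffAt_gr hs hx).differentiableAt (by simp)).hasFDerivAt
  have h3 := h1.comp x (h2.const_smul t)
  have h4 : pd a (fun x => g (t • gr f x)) x =
      fderiv ℝ g (t • gr f x) (t • fderiv ℝ (gr f) x (e a)) := by
    unfold pd
    have : (fun x => g (t • gr f x)) = g ∘ (t • gr f) := rfl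
    rw [this, h3.fderiv]
    rfl
  have h5 : ∀ l, (fderiv ℝ (gr f) x (e a)) l = pd a (pd l f) x := by
    intro l
    have h6 : HasFDerivAt (fun y => gr f y l)
        ((EuclideanSpace.proj l : E3 →L[ℝ] ℝ) ∘L fderiv ℝ (gr f) x) x :=
      (EuclideanSpace.proj l : E3 →L[ℝ] ℝ).hasFDerivAt.comp x h2
    have h7 := congrArg (fun L : E3 →L[ℝ] ℝ => L (e a)) h6.fderiv
    exact h7.symm
  rw [h4, fderiv_eq_sum, Finset.mul_sum]
  apply Finset.sum_congr rfl
  intro l _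
  have h8 : (t • fderiv ℝ (gr f) x (e a)) l = t * pd a (pd l f) x := by
    rw [← h5 l]
    rfl
  rw [h8]
  ring

theorem sm_Zf (hs : Sm f) {G : Fin 3 → E3 → ℝ} (hG : ∀ i, ContDiff ℝ ∞ (G i)) (t : ℝ)
    (b : Fin 3) : Sm (Zf f G t b) :=
  ((Sm.sum (fun i _ => (sm_comp hs (hG i) t).mul (Sm.coord i))).mul (hs.pd b)).sub
    (hs.mul (sm_comp hs (hG b) t))

theorem hom_Zf (hs : Sm f) (hk : Hom 1 f) (G : Fin 3 → E3 → ℝ) (t : ℝ)
    (b : Fin 3) : Hom 1 (Zf f G t b) := by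
  have h1 : Hom 1 (fun x => ∑ i, G i (t • gr f x) * x i) := by
    apply Hom.sum
    intro i _
    have := (hom_comp hs hk (G i) t).mul (Hom.coord i)
    norm_num at this
    exact this
  have h2 := h1.mul (hk.pd hs b)
  have h3 := hk.mul (hom_comp hs hk (G b) t)
  norm_num at h2 h3
  exact h2.sub h3

theorem pd_Zf (hs : Sm f) {G : Fin 3 → E3 → ℝ} (hG : ∀ i, ContDiff ℝ ∞ (G i)) (t : ℝ)
    (a b : Fin 3) {x : E3} (hx : x ≠ 0) :
    pd a (Zf f G t b) x =
      (∑ i, ((t * ∑ l, pd l (G i) (t • gr f x) * pd a (pd l f) x) * x i +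
        G i (t • gr f x) * (if a = i then 1 else 0))) * pd b f x +
      (∑ i, G i (t • gr f x) * x i) * pd a (pd b f) x -
      (pd a f x * G b (t • gr f x) +
        f x * (t * ∑ l, pd l (G b) (t • gr f x) * pd a (pd l f) x)) := by
  have hsum : Sm (fun x => ∑ i, G i (t • gr f x) * x i) :=
    Sm.sum (fun i _ => (sm_comp hs (hG i) t).mul (Sm.coord i))
  unfold Zf
  rw [pd_sub (hsum.mul (hs.pd b)) (hs.mul (sm_comp hs (hG b) t)) a hx,
    pd_mul hsum (hs.pd b) a hx, pd_mul hs (sm_comp hs (hG b) t) a hx, pd_comp hs (hG b) t a hx,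
    pd_sum (fun i _ => (sm_comp hs (hG i) t).mul (Sm.coord i)) a hx]
  congr 3
  apply Finset.sum_congr rfl
  intro i _
  rw [pd_mul (sm_comp hs (hG i) t) (Sm.coord i) a hx, pd_comp hs (hG i) t a hx, pd_coord]

theorem norm_sq_sum {x : E3} (hx : ‖x‖ = 1) : ∑ i, x i ^ 2 = 1 := by
  rw [← norm_sq_eq, hx]
  norm_num

/-- the pointwise divergence identity -/
theorem div_W (hs : Sm f) (hk : Hom 1 f) {G : Fin 3 → E3 → ℝ} (hG : ∀ i, ContDiff ℝ ∞ (G i))
    (t : ℝ) {x : E3} (hx : ‖x‖ = 1) :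
    ∑ a, pd a (fun x => ∑ b, Kf f a b x * Zf f G t b x) x =
      sg2 f x * (t * (∑ i, ∑ l, pd l (G i) (t • gr f x) * pd l f x * x i) +
        2 * (∑ i, G i (t • gr f x) * x i) - f x * (t * dv G (t • gr f x))) := by
  have hx0 : x ≠ 0 := by
    rintro rfl
    simp at hx
  have h1 : ∀ a, pd a (fun x => ∑ b, Kf f a b x * Zf f G t b x) x =
      ∑ b, (pd a (Kf f a b) x * Zf f G t b x + Kf f a b x * pd a (Zf f G t b) x) := by
    intro a
    rw [pd_sum (fun b _ => (sm_Kf hs a b).mul (sm_Zf hs hG t b)) a hx0]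
    apply Finset.sum_congr rfl
    intro b _
    rw [pd_mul (sm_Kf hs a b) (sm_Zf hs hG t b) a hx0]
  simp only [h1]
  have h2 : ∑ a, ∑ b, (pd a (Kf f a b) x * Zf f G t b x + Kf f a b x * pd a (Zf f G t b) x) =
      ∑ b, (∑ a, pd a (Kf f a b) x) * Zf f G t b x +
        ∑ a, ∑ b, Kf f a b x * pd a (Zf f G t b) x := by
    simp only [Finset.sum_add_distrib]
    rw [Finset.sum_comm]
    simp only [Finset.sum_mul]
  rw [h2]
  simp only [div_Kf hs _ hx0, zero_mul, Finset.sum_const_zero, zero_add]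
  simp only [pd_Zf hs hG t _ _ hx0]
  have he := euler hk hs hx0
  have he0 : ∀ i, ∑ j, x j * pd j (pd i f) x = 0 := by
    intro i
    have := euler (hk.pd hs i) (hs.pd i) hx0
    simpa using this
  exact alg_key (x := fun i => x i) (p := fun i => pd i f x) (G := fun i => G i (t • gr f x))
    (A := fun i j => pd i (pd j f) x) (D := fun i l => pd l (G i) (t • gr f x)) (f := f x)
    (t := t) (norm_sq_sum hx) (fun i j => pd_comm hs i j hx0) he0 (by simpa using he)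

theorem tang_W (hs : Sm f) (hk : Hom 1 f) (G : Fin 3 → E3 → ℝ) (t : ℝ) {x : E3} (hx0 : x ≠ 0) :
    ∑ a, x a * ∑ b, Kf f a b x * Zf f G t b x = 0 := by
  have he : ∑ i, x i * pd i f x = f x := by
    have := euler hk hs hx0
    simpa using this
  have he0 : ∀ i, ∑ j, x j * pd j (pd i f) x = 0 := by
    intro i
    have := euler (hk.pd hs i) (hs.pd i) hx0
    simpa using this
  have h1 : ∑ a, x a * ∑ b, Kf f a b x * Zf f G t b x =
      ∑ b, (∑ a, x a * Kf f a b x) * Zf f G t b x := by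
    simp only [Finset.mul_sum, Finset.sum_mul]
    rw [Finset.sum_comm]
    apply Finset.sum_congr rfl
    intro b _
    apply Finset.sum_congr rfl
    intro a _
    ring
  have h2 : ∀ b, ∑ a, x a * Kf f a b x = lap f x * x b := by
    intro b
    unfold Kf
    simp only [mul_sub]
    rw [Finset.sum_sub_distrib, he0 b]
    simp
    ring
  rw [h1]
  simp only [h2]
  unfold Zf
  have h3 : ∑ b, lap f x * x b *
      ((∑ i, G i (t • gr f x) * x i) * pd b f x - f x * G b (t • gr f x)) =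
      lap f x * ((∑ i, G i (t • gr f x) * x i) * (∑ b, x b * pd b f x) -
        f x * ∑ b, G b (t • gr f x) * x b) := by
    simp only [Fin.sum_univ_three]
    ring
  rw [h3, he]
  ring

theorem sm_W (hs : Sm f) {G : Fin 3 → E3 → ℝ} (hG : ∀ i, ContDiff ℝ ∞ (G i)) (t : ℝ) (a : Fin 3) :
    Sm (fun x => ∑ b, Kf f a b x * Zf f G t b x) :=
  Sm.sum (fun b _ => (sm_Kf hs a b).mul (sm_Zf hs hG t b))

/-- smoothness of the two integrands -/
theorem sm_dG (hs : Sm f) {G : Fin 3 → E3 → ℝ} (hG : ∀ i, ContDiff ℝ ∞ (G i)) (t : ℝ) :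
    Sm (fun x => ∑ i, ∑ l, pd l (G i) (t • gr f x) * pd l f x * x i) := by
  apply Sm.sum
  intro i _
  apply Sm.sum
  intro l _
  have h1 : ContDiff ℝ ∞ (pd l (G i)) := by
    have := ((hG i).fderiv_right (m := ∞) (by simp))
    exact this.clm_apply contDiff_const
  exact ((sm_comp hs h1 t).mul (hs.pd l)).mul (Sm.coord i)

theorem contDiff_pd {g : E3 → ℝ} (hg : ContDiff ℝ ∞ g) (l : Fin 3) : ContDiff ℝ ∞ (pd l g) := by
  have := (hg.fderiv_right (m := ∞) (by simp))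
  exact this.clm_apply contDiff_const

theorem contDiff_dv {G : Fin 3 → E3 → ℝ} (hG : ∀ i, ContDiff ℝ ∞ (G i)) : ContDiff ℝ ∞ (dv G) := by
  unfold dv
  exact ContDiff.sum (fun i _ => contDiff_pd (hG i) i)

theorem sm_gx (hs : Sm f) {G : Fin 3 → E3 → ℝ} (hG : ∀ i, ContDiff ℝ ∞ (G i)) (t : ℝ) :
    Sm (fun x => ∑ i, G i (t • gr f x) * x i) :=
  Sm.sum (fun i _ => (sm_comp hs (hG i) t).mul (Sm.coord i))

/-- **the derivative identity** on the sphere -/
theorem flux_t (hs : Sm f) (hk : Hom 1 f) {G : Fin 3 → E3 → ℝ} (hG : ∀ i, ContDiff ℝ ∞ (G i))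
    (t : ℝ) :
    SI (fun x => sg2 f x * (t * (∑ i, ∑ l, pd l (G i) (t • gr f x) * pd l f x * x i) +
        2 * (∑ i, G i (t • gr f x) * x i))) =
      t * SI (fun x => dv G (t • gr f x) * (f x * sg2 f x)) := by
  have h := div_lemma (m := 0) (fun a x => ∑ b, Kf f a b x * Zf f G t b x)
    (fun a => sm_W hs hG t a)
    (fun a => Hom.sum (fun b _ => by
      have := (hom_Kf hs hk a b).mul (hom_Zf hs hk G t b)
      norm_num at this
      exact this))
  have h1 : SI (fun x => ∑ i, x i * (fun a x => ∑ b, Kf f a b x * Zf f G t b x) i x) =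
      SI (fun _ => 0) := by
    apply SI_congr
    intro x hx
    have hx0 : x ≠ 0 := by
      rintro rfl
      simp at hx
    exact tang_W hs hk G t hx0
  have h2 : SI (fun _ => (0 : ℝ)) = 0 := by simp [SI]
  rw [h1, h2, mul_zero] at h
  have s1 := sm_sg2 hs
  have s2 := sm_dG hs hG t
  have s3 := sm_gx hs hG t
  have s4 : Sm (fun x => dv G (t • gr f x)) := sm_comp hs (contDiff_dv hG) t
  have sA : Sm (fun x => sg2 f x * (t * (∑ i, ∑ l, pd l (G i) (t • gr f x) * pd l f x * x i) +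
        2 * (∑ i, G i (t • gr f x) * x i))) :=
    s1.mul (((Sm.const t).mul s2).add ((Sm.const 2).mul s3))
  have sB : Sm (fun x => t * (dv G (t • gr f x) * (f x * sg2 f x))) :=
    (Sm.const t).mul (s4.mul (hs.mul s1))
  have h3 : SI (fun x => ∑ i, pd i ((fun a x => ∑ b, Kf f a b x * Zf f G t b x) i) x) =
      SI (fun x => sg2 f x * (t * (∑ i, ∑ l, pd l (G i) (t • gr f x) * pd l f x * x i) +
        2 * (∑ i, G i (t • gr f x) * x i)) - t * (dv G (t • gr f x) * (f x * sg2 f x))) := by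
    apply SI_congr
    intro x hx
    have := div_W hs hk hG t hx
    rw [this]
    ring
  rw [h3, SI_sub sA sB, SI_const_mul] at h
  linarith

end

end Helper47.MEI
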