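import Pool.Agent.Helper31.SR.IntC

/-!
# Project MEI (M2), track B: glue between certificates at the vertices and one face

`fglue` = the certificates `m v` at the vertices `V v`, relaxed by multipliers `mu k` times the
slack of the contact conditions `r2 k ≤ S (j k)`, give the value of the face at the state `S`;
`glue` = the same for the four faces, with the loss numbers `q` of `coreP_X`.
-/

set_option autoImplicit false

namespace Helper47.MEI.Glue

open Pool.Agent.Helper31.SR.IntC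

variable {ι : Type} [Fintype ι]

/-- a coordinate of the state as combination of the vertices -/
theorem dc_lin {V : ι → Fin 4 → ℝ} {S : Fin 4 → ℝ} {lam : ι → ℝ} (h : Dc V S lam) {κ : Type}
    [Fintype κ] (mu r2 : κ → ℝ) (j : κ → Fin 4) :
    ∑ v, lam v * ∑ k, mu k * (r2 k - V v (j k)) = ∑ k, mu k * (r2 k - S (j k)) := by
  have e : ∀ k, mu k * (r2 k - S (j k)) = ∑ v, lam v * (mu k * (r2 k - V v (j k))) := by
    intro k
    rw [h.eq (j k)]
    have e1 : r2 k = ∑ v, lam v * r2 k := by rw [← Finset.sum_mul, h.one, one_mul]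
    nth_rewrite 1 [e1]
    rw [← Finset.sum_sub_distrib, Finset.mul_sum]
    exact Finset.sum_congr rfl fun v _ => by ring
  rw [Finset.sum_congr rfl fun k _ => e k, Finset.sum_comm]
  exact Finset.sum_congr rfl fun v _ => Finset.mul_sum _ _ _

/-- **one face**: concavity in the state and relaxed certificates at the vertices -/
theorem fglue {V : ι → Fin 4 → ℝ} {S : Fin 4 → ℝ} {lam : ι → ℝ} (h : Dc V S lam) {κ : Type}
    [Fintype κ] {mu r2 : κ → ℝ} {j : κ → Fin 4} (hmu : ∀ k, 0 ≤ mu k)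
    (hr : ∀ k, r2 k ≤ S (j k)) {m : ι → ℝ} {Vf : (Fin 4 → ℝ) → ℝ}
    (hc : ∑ v, lam v * Vf (V v) ≤ Vf S)
    (h1 : ∀ v, m v - ∑ k, mu k * (r2 k - V v (j k)) ≤ Vf (V v)) :
    ∑ v, lam v * m v ≤ Vf S := by
  have h2 : ∑ v, lam v * (m v - ∑ k, mu k * (r2 k - V v (j k))) ≤ ∑ v, lam v * Vf (V v) :=
    Finset.sum_le_sum fun v _ => mul_le_mul_of_nonneg_left (h1 v) (h.nn v)
  have h3 : ∑ v, lam v * (m v - ∑ k, mu k * (r2 k - V v (j k))) =
      ∑ v, lam v * m v - ∑ k, mu k * (r2 k - S (j k)) := by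
    rw [← dc_lin h mu r2 j, ← Finset.sum_sub_distrib]
    exact Finset.sum_congr rfl fun v _ => by ring
  have h4 : ∑ k, mu k * (r2 k - S (j k)) ≤ 0 :=
    Finset.sum_nonpos fun k _ => mul_nonpos_of_nonneg_of_nonpos (hmu k) (by linarith [hr k])
  linarith

/-- `fglue` for multipliers which depend on the vertex only through a common factor one, with a
cost number `q v` at the vertices (`cost ≤ ∑ lam v * q v`) -/
theorem fglue_q {V : ι → Fin 4 → ℝ} {S : Fin 4 → ℝ} {lam : ι → ℝ} (h : Dc V S lam) {κ : Type}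
    [Fintype κ] {mu r2 : κ → ℝ} {j : κ → Fin 4} (hmu : ∀ k, 0 ≤ mu k)
    (hr : ∀ k, r2 k ≤ S (j k)) {m q : ι → ℝ} {Vf : (Fin 4 → ℝ) → ℝ} {cost : ℝ}
    (hc : ∑ v, lam v * Vf (V v) ≤ Vf S)
    (h1 : ∀ v, m v - ∑ k, mu k * (r2 k - V v (j k)) ≤ Vf (V v))
    (hq : cost ≤ ∑ v, lam v * q v) :
    ∑ v, lam v * (m v - q v) ≤ Vf S - cost := by
  have h2 := fglue h hmu hr hc h1
  have h3 : ∑ v, lam v * (m v - q v) = ∑ v, lam v * m v - ∑ v, lam v * q v := by
    rw [← Finset.sum_sub_distrib]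
    exact Finset.sum_congr rfl fun v _ => by ring
  linarith

/-- concavity of `affine - sum of positive parts of affine functions` -/
theorem conc_pp {V : ι → Fin 4 → ℝ} {S : Fin 4 → ℝ} {lam : ι → ℝ} (h : Dc V S lam) {κ : Type}
    [Fintype κ] (c : ℝ) (d : Fin 4 → ℝ) (cp : κ → ℝ) (dp : κ → Fin 4 → ℝ) :
    ∑ v, lam v * (c + ∑ i, d i * V v i - ∑ k, max (cp k + ∑ i, dp k i * V v i) 0) ≤
      c + ∑ i, d i * S i - ∑ k, max (cp k + ∑ i, dp k i * S i) 0 := by
  have e : ∑ v, lam v * (c + ∑ i, d i * V v i - ∑ k, max (cp k + ∑ i, dp k i * V v i) 0) =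
      ∑ v, lam v * (c + ∑ i, d i * V v i) -
        ∑ k, ∑ v, lam v * max (cp k + ∑ i, dp k i * V v i) 0 := by
    rw [Finset.sum_comm (s := Finset.univ) (t := Finset.univ)
      (f := fun k v => lam v * max (cp k + ∑ i, dp k i * V v i) 0), ← Finset.sum_sub_distrib]
    exact Finset.sum_congr rfl fun v _ => by rw [mul_sub, Finset.mul_sum]
  rw [e, ← h.aff c d]
  have h1 : ∑ k, max (cp k + ∑ i, dp k i * S i) 0 ≤
      ∑ k, ∑ v, lam v * max (cp k + ∑ i, dp k i * V v i) 0 :=
    Finset.sum_le_sum fun k _ => h.pos (cp k) (dp k)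
  linarith

/-- `min (S i) (S k)` is the level with the larger index if `S` is decreasing -/
theorem min_anti {S : Fin 4 → ℝ} (hS : Antitone S) (i k : Fin 4) : min (S i) (S k) =
    S (max i k) := (hS.map_max (a := i) (b := k)).symm

end Helper47.MEI.Glue
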