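import Pool.Agent.Helper22.MEI.Sig

/-!
# Project MEI, regime I: slab estimates

Coordinates `q = (x, y, z)`, `w = z - t`; `s = √2 / 2`.
-/

namespace Helper47.MEI

open Set MeasureTheory Filter Topology
open scoped ENNReal

/-- projection bound: if the fibre integrals of `H` are at most `1`, its integral over `S` is at
most the area of the shadow. -/
theorem proj_bound {S : Set (ℝ × ℝ × ℝ)} (hS : MeasurableSet S) {H : ℝ × ℝ × ℝ → ℝ≥0∞}
    (hH : Measurable H) (H1 : ∀ x y, ∫⁻ z, H (x, y, z) ≤ 1) {P : Set (ℝ × ℝ)}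
    (hPm : MeasurableSet P) (hP : ∀ q ∈ S, H q ≠ 0 → (q.1, q.2.1) ∈ P) :
    ∫⁻ q in S, H q ≤ volume P := by
  rw [← lintegral_indicator hS]
  have hm : Measurable (S.indicator H) := hH.indicator hS
  have e1 : ∫⁻ q, S.indicator H q = ∫⁻ x : ℝ, ∫⁻ y : ℝ, ∫⁻ z : ℝ, S.indicator H (x, y, z) := by
    have h1 : ∫⁻ q, S.indicator H q = ∫⁻ x : ℝ, ∫⁻ p : ℝ × ℝ, S.indicator H (x, p) :=
      lintegral_prod _ hm.aemeasurable
    rw [h1]
    congr 1
    ext x
    exact lintegral_prod (fun p : ℝ × ℝ => S.indicator H (x, p))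
      (hm.comp measurable_prodMk_left).aemeasurable
  have e2 : volume P = ∫⁻ x : ℝ, ∫⁻ y : ℝ, P.indicator (fun _ => (1 : ℝ≥0∞)) (x, y) := by
    rw [← lintegral_prod (fun p : ℝ × ℝ => P.indicator (fun _ => (1 : ℝ≥0∞)) p)
      (measurable_const.indicator hPm).aemeasurable]
    exact (lintegral_indicator_one hPm).symm
  rw [e1, e2]
  apply lintegral_mono
  intro x
  apply lintegral_mono
  intro y
  by_cases hxy : (x, y) ∈ P
  · simp only [indicator_of_mem hxy]
    refine le_trans (lintegral_mono fun z => ?_) (H1 x y)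
    exact indicator_le_self _ _ _
  · simp only [indicator_of_notMem hxy]
    have : ∀ z, S.indicator H (x, y, z) = 0 := by
      intro z
      by_cases hz : (x, y, z) ∈ S
      · rw [indicator_of_mem hz]
        by_contra h
        exact hxy (hP _ hz h)
      · exact indicator_of_notMem hz _
    simp [this]

/-- one dimensional set inside an interval -/
theorem vol_le_of_diam {A : Set ℝ} {L : ℝ} (h : ∀ u ∈ A, ∀ v ∈ A, u ≤ v → v - u ≤ L) :
    volume A ≤ ENNReal.ofReal L := by
  refine (Real.volume_le_diam A).trans ?_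
  refine Metric.ediam_le fun u hu v hv => ?_
  rw [edist_dist, Real.dist_eq]
  apply ENNReal.ofReal_le_ofReal
  rcases le_total u v with h1 | h1
  · rw [abs_of_nonpos (by linarith)]
    linarith [h u hu v hv h1]
  · rw [abs_of_nonneg (by linarith)]
    exact h v hv u hu h1

/-- region between two levels of `3 y + 3 y ^ 2` -/
def shd (a L : ℝ → ℝ) (sg : ℝ) : Set (ℝ × ℝ) :=
  {p | |p.1| ≤ 1 / 2 ∧ 0 ≤ sg * p.2 ∧ a p.1 ≤ 3 * (sg * p.2) + 3 * p.2 ^ 2 ∧
      3 * (sg * p.2) + 3 * p.2 ^ 2 ≤ a p.1 + L p.1}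

theorem shd_closed {a L : ℝ → ℝ} (ha : Continuous a) (hL : Continuous L) (sg : ℝ) :
    IsClosed (shd a L sg) := by
  have h1 : IsClosed {p : ℝ × ℝ | |p.1| ≤ 1 / 2} := isClosed_le (by fun_prop) continuous_const
  have h2 : IsClosed {p : ℝ × ℝ | 0 ≤ sg * p.2} := isClosed_le continuous_const (by fun_prop)
  have h3 : IsClosed {p : ℝ × ℝ | a p.1 ≤ 3 * (sg * p.2) + 3 * p.2 ^ 2} :=
    isClosed_le (by fun_prop) (by fun_prop)
  have h4 : IsClosed {p : ℝ × ℝ | 3 * (sg * p.2) + 3 * p.2 ^ 2 ≤ a p.1 + L p.1} :=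
    isClosed_le (by fun_prop) (by fun_prop)
  exact h1.inter (h2.inter (h3.inter h4))

theorem area_shadow {a L : ℝ → ℝ} {sg : ℝ} (hsg : sg = 1 ∨ sg = -1) (ha : Continuous a)
    (hL : Continuous L) (hL0 : ∀ x, |x| ≤ 1 / 2 → 0 ≤ L x) :
    volume (shd a L sg) ≤ ENNReal.ofReal (∫ x in (-(1 / 2 : ℝ))..(1 / 2), L x / 3) := by
  have hm := (shd_closed ha hL sg).measurableSet
  rw [Measure.volume_eq_prod, Measure.prod_apply hm]
  have h1 : ∀ x : ℝ, volume (Prod.mk x ⁻¹' (shd a L sg)) ≤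
      (Icc (-(1 / 2 : ℝ)) (1 / 2)).indicator (fun x => ENNReal.ofReal (L x / 3)) x := by
    intro x
    by_cases hx : |x| ≤ 1 / 2
    · have hx' : x ∈ Icc (-(1 / 2 : ℝ)) (1 / 2) := abs_le.1 hx
      rw [indicator_of_mem hx']
      apply vol_le_of_diam
      rintro u ⟨_, hu1, hu2, hu3⟩ v ⟨_, hv1, hv2, hv3⟩ huv
      simp only at hu1 hu2 hu3 hv1 hv2 hv3
      rcases hsg with rfl | rfl
      · nlinarith
      · nlinarith
    · have : Prod.mk x ⁻¹' (shd a L sg) = ∅ := by
        ext y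
        simp only [mem_preimage, mem_empty_iff_false, iff_false]
        intro h
        exact hx h.1
      rw [this, measure_empty]
      exact zero_le
  refine (lintegral_mono h1).trans ?_
  rw [lintegral_indicator measurableSet_Icc, intervalIntegral.integral_of_le (by norm_num),
    ← integral_Icc_eq_integral_Ioc, ← ofReal_integral_eq_lintegral_ofReal]
  · exact (hL.div_const 3).continuousOn.integrableOn_compact isCompact_Icc
  · filter_upwards [ae_restrict_mem measurableSet_Icc] with x hx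
    have := hL0 x (abs_le.2 hx)
    simp only [Pi.zero_apply]
    positivity

end Helper47.MEI
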