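import Pool.Agent.Helper47.MEI.S3a
import Pool.Agent.Helper78.MEI.Edge

/-!
# Project MEI, regime I: the cut-off near the walls of the edge cell
-/

namespace Helper47.MEI

open Set MeasureTheory Filter Topology
open Helper22.MEI Helper22.Sig
open scoped ENNReal ContDiff

/-- wall function, `sg = ± 1` -/
noncomputable def lw (sg : ℝ) (q : ℝ × ℝ × ℝ) : ℝ := s * (q.2.2 - t) - sg * q.2.1

/-- one factor of the cut-off -/
noncomputable def ct (e sg : ℝ) (q : ℝ × ℝ × ℝ) : ℝ := Real.smoothTransition (lw sg q / e)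

/-- the cut-off -/
noncomputable def chi (e : ℝ) (q : ℝ × ℝ × ℝ) : ℝ := ct e 1 q * ct e (-1) q

/-- the derivative weight -/
noncomputable def Hs (e sg : ℝ) (q : ℝ × ℝ × ℝ) : ℝ :=
  s / e * deriv Real.smoothTransition (lw sg q / e)

theorem st_deriv_nonneg (r : ℝ) : 0 ≤ deriv Real.smoothTransition r :=
  Real.smoothTransition.monotone.deriv_nonneg

theorem st_deriv_cont : Continuous (deriv Real.smoothTransition) :=
  (Real.smoothTransition.contDiff (n := 1)).continuous_deriv le_rfl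

theorem st_hasDeriv (r : ℝ) :
    HasDerivAt Real.smoothTransition (deriv Real.smoothTransition r) r :=
  ((Real.smoothTransition.contDiff (n := 1)).differentiable one_ne_zero _).hasDerivAt

theorem ct_nonneg (e sg : ℝ) (q : ℝ × ℝ × ℝ) : 0 ≤ ct e sg q := Real.smoothTransition.nonneg _

theorem ct_le (e sg : ℝ) (q : ℝ × ℝ × ℝ) : ct e sg q ≤ 1 := Real.smoothTransition.le_one _

theorem chi_nonneg (e : ℝ) (q : ℝ × ℝ × ℝ) : 0 ≤ chi e q :=
  mul_nonneg (ct_nonneg _ _ _) (ct_nonneg _ _ _)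

theorem chi_le (e : ℝ) (q : ℝ × ℝ × ℝ) : chi e q ≤ 1 :=
  mul_le_one₀ (ct_le _ _ _) (ct_nonneg _ _ _) (ct_le _ _ _)

theorem lw_cd (sg : ℝ) {n : WithTop ℕ∞} : ContDiff ℝ n (lw sg) := by unfold lw; fun_prop

theorem ct_cd (e sg : ℝ) : ContDiff ℝ ∞ (ct e sg) := by
  unfold ct
  exact (Real.smoothTransition.contDiff (n := ⊤)).comp ((lw_cd sg).div_const e)

theorem chi_cd (e : ℝ) : ContDiff ℝ ∞ (chi e) := (ct_cd e 1).mul (ct_cd e (-1))

theorem Hs_cont (e sg : ℝ) : Continuous (Hs e sg) := by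
  unfold Hs
  exact continuous_const.mul (st_deriv_cont.comp ((lw_cd sg (n := 1)).continuous.div_const e))

theorem Hs_nonneg {e : ℝ} (he : 0 < e) (sg : ℝ) (q : ℝ × ℝ × ℝ) : 0 ≤ Hs e sg q :=
  mul_nonneg (div_nonneg s_pos.le he.le) (st_deriv_nonneg _)

theorem Hs_supp {e : ℝ} (he : 0 < e) {sg : ℝ} {q : ℝ × ℝ × ℝ} (h : Hs e sg q ≠ 0) :
    0 < lw sg q ∧ lw sg q < e := by
  by_contra hc
  apply h
  unfold Hs
  rw [st_deriv_zero, mul_zero]
  rw [not_and_or, not_lt, not_lt] at hc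
  rcases hc with hc | hc
  · exact Or.inl (div_nonpos_of_nonpos_of_nonneg hc he.le)
  · exact Or.inr ((one_le_div he).2 hc)

/-- the edge cell in coordinates -/
def Zc : Set (ℝ × ℝ × ℝ) := {q | |q.2.1| < s * (q.2.2 - t)}

theorem mem_Zc {q : ℝ × ℝ × ℝ} : q ∈ Zc ↔ 0 < lw 1 q ∧ 0 < lw (-1) q := by
  unfold Zc lw
  simp only [mem_ofPred_eq, abs_lt]
  constructor
  · rintro ⟨h1, h2⟩; exact ⟨by linarith, by linarith⟩
  · rintro ⟨h1, h2⟩; exact ⟨by linarith, by linarith⟩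

theorem Zc_open : IsOpen Zc := by
  have : Zc = {q : ℝ × ℝ × ℝ | |q.2.1| < s * (q.2.2 - t)} := rfl
  rw [this]
  exact isOpen_lt (by fun_prop) (by fun_prop)

theorem chi_out {e : ℝ} (he : 0 < e) {q : ℝ × ℝ × ℝ} (h : q ∉ Zc) : chi e q = 0 := by
  rw [mem_Zc, not_and_or, not_lt, not_lt] at h
  unfold chi ct
  rcases h with h | h
  · rw [Real.smoothTransition.zero_of_nonpos (div_nonpos_of_nonpos_of_nonneg h he.le), zero_mul]
  · rw [Real.smoothTransition.zero_of_nonpos (x := lw (-1) q / e)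
      (div_nonpos_of_nonpos_of_nonneg h he.le), mul_zero]

/-! ### derivatives -/

theorem lw_fd (sg : ℝ) (q : ℝ × ℝ × ℝ) : HasFDerivAt (lw sg) (fderiv ℝ (lw sg) q) q :=
  ((lw_cd sg (n := 1)).differentiable one_ne_zero q).hasFDerivAt

theorem ct_E1 (e sg : ℝ) (q : ℝ × ℝ × ℝ) : E1 (ct e sg) q = 0 := by
  refine E1_of (F := ct e sg) ((ct_cd e sg).of_le (by simp)) (d := 0) ?_
  exact hasDerivAt_const q.1 (Real.smoothTransition ((s * (q.2.2 - t) - sg * q.2.1) / e))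

theorem ct_E2 (e sg : ℝ) (q : ℝ × ℝ × ℝ) :
    E2 (ct e sg) q = -(sg / e) * deriv Real.smoothTransition (lw sg q / e) := by
  refine E2_of ((ct_cd e sg).of_le (by simp)) ?_
  have h1 : HasDerivAt (fun a : ℝ => (s * (q.2.2 - t) - sg * a) / e) (-(sg * 1) / e) q.2.1 :=
    (((hasDerivAt_id _).const_mul sg).const_sub _).div_const e
  have h2 := (st_hasDeriv (lw sg q / e)).comp q.2.1 h1
  refine h2.congr_deriv ?_
  ring

theorem ct_E3 (e sg : ℝ) (q : ℝ × ℝ × ℝ) : E3 (ct e sg) q = Hs e sg q := by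
  refine E3_of ((ct_cd e sg).of_le (by simp)) ?_
  have h1 : HasDerivAt (fun a : ℝ => (s * (a - t) - sg * q.2.1) / e) (s * 1 / e) q.2.2 :=
    ((((hasDerivAt_id _).sub_const t).const_mul s).sub_const _).div_const e
  have h2 := (st_hasDeriv (lw sg q / e)).comp q.2.2 h1
  refine h2.congr_deriv ?_
  unfold Hs
  ring

theorem E1_mul {F G : ℝ × ℝ × ℝ → ℝ} (hF : ContDiff ℝ 1 F) (hG : ContDiff ℝ 1 G)
    (q : ℝ × ℝ × ℝ) : E1 (fun q => F q * G q) q = F q * E1 G q + G q * E1 F q := by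
  unfold E1
  rw [fderiv_fun_mul (hF.differentiable one_ne_zero q) (hG.differentiable one_ne_zero q)]
  rfl

theorem E2_mul {F G : ℝ × ℝ × ℝ → ℝ} (hF : ContDiff ℝ 1 F) (hG : ContDiff ℝ 1 G)
    (q : ℝ × ℝ × ℝ) : E2 (fun q => F q * G q) q = F q * E2 G q + G q * E2 F q := by
  unfold E2
  rw [fderiv_fun_mul (hF.differentiable one_ne_zero q) (hG.differentiable one_ne_zero q)]
  rfl

theorem E3_mul {F G : ℝ × ℝ × ℝ → ℝ} (hF : ContDiff ℝ 1 F) (hG : ContDiff ℝ 1 G)
    (q : ℝ × ℝ × ℝ) : E3 (fun q => F q * G q) q = F q * E3 G q + G q * E3 F q := by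
  unfold E3
  rw [fderiv_fun_mul (hF.differentiable one_ne_zero q) (hG.differentiable one_ne_zero q)]
  rfl

theorem chi_E1 (e : ℝ) (q : ℝ × ℝ × ℝ) : E1 (chi e) q = 0 := by
  unfold chi
  rw [E1_mul ((ct_cd e 1).of_le (by simp)) ((ct_cd e (-1)).of_le (by simp)), ct_E1, ct_E1]
  ring

theorem chi_E3 (e : ℝ) (q : ℝ × ℝ × ℝ) :
    E3 (chi e) q = ct e 1 q * Hs e (-1) q + ct e (-1) q * Hs e 1 q := by
  unfold chi
  rw [E3_mul ((ct_cd e 1).of_le (by simp)) ((ct_cd e (-1)).of_le (by simp)), ct_E3, ct_E3]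

theorem chi_E2 (e : ℝ) (q : ℝ × ℝ × ℝ) :
    s * E2 (chi e) q = ct e 1 q * Hs e (-1) q - ct e (-1) q * Hs e 1 q := by
  unfold chi
  rw [E2_mul ((ct_cd e 1).of_le (by simp)) ((ct_cd e (-1)).of_le (by simp)), ct_E2, ct_E2]
  unfold Hs
  ring

/-- divergence of the cut-off field -/
theorem dv_chi {F1 F2 F3 : ℝ × ℝ × ℝ → ℝ} (h1 : ContDiff ℝ 1 F1) (h2 : ContDiff ℝ 1 F2)
    (h3 : ContDiff ℝ 1 F3) (e : ℝ) (q : ℝ × ℝ × ℝ) :
    dv (fun q => chi e q * F1 q) (fun q => chi e q * F2 q) (fun q => chi e q * F3 q) q =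
      chi e q * dv F1 F2 F3 q + (F2 q * E2 (chi e) q + F3 q * E3 (chi e) q) := by
  have hc : ContDiff ℝ 1 (chi e) := (chi_cd e).of_le (by simp)
  unfold dv
  rw [E1_mul hc h1, E2_mul hc h2, E3_mul hc h3, chi_E1]
  ring

/-- fibre integral of the weight -/
theorem Hs_fib {e : ℝ} (he : 0 < e) (sg x y : ℝ) :
    ∫⁻ z, ENNReal.ofReal (Hs e sg (x, y, z)) ≤ 1 := by
  have hs := s_pos
  set A : ℝ := sg * y / s + t with hA
  have hH : ∀ z, HasDerivAt (fun z : ℝ => ct e sg (x, y, z)) (Hs e sg (x, y, z)) z := by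
    intro z
    have h1 : HasDerivAt (fun a : ℝ => (s * (a - t) - sg * y) / e) (s * 1 / e) z :=
      ((((hasDerivAt_id _).sub_const t).const_mul s).sub_const _).div_const e
    have h2 := (st_hasDeriv (lw sg (x, y, z) / e)).comp z h1
    refine h2.congr_deriv ?_
    unfold Hs
    ring
  have hcont : Continuous (fun z : ℝ => Hs e sg (x, y, z)) := (Hs_cont e sg).comp (by fun_prop)
  have hsupp : ∀ z, z ∉ Ioc A (A + e / s) → Hs e sg (x, y, z) = 0 := by
    intro z hz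
    by_contra hne
    obtain ⟨h1, h2⟩ := Hs_supp he hne
    apply hz
    unfold lw at h1 h2
    simp only at h1 h2
    constructor
    · rw [hA]
      have : sg * y / s < z - t := by
        rw [div_lt_iff₀ hs]
        linarith
      linarith
    · have h3 : z - t ≤ (sg * y + e) / s := by
        rw [le_div_iff₀ hs]
        linarith
      rw [hA]
      rw [add_div] at h3
      linarith
  have h1 : ∫⁻ z, ENNReal.ofReal (Hs e sg (x, y, z)) =
      ∫⁻ z in Ioc A (A + e / s), ENNReal.ofReal (Hs e sg (x, y, z)) := by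
    rw [← lintegral_indicator measurableSet_Ioc]
    congr 1
    ext z
    by_cases hz : z ∈ Ioc A (A + e / s)
    · rw [indicator_of_mem hz]
    · rw [indicator_of_notMem hz, hsupp z hz, ENNReal.ofReal_zero]
  have hle : A ≤ A + e / s := by
    have : 0 < e / s := div_pos he hs
    linarith
  rw [h1, ← ofReal_integral_eq_lintegral_ofReal]
  · rw [← intervalIntegral.integral_of_le hle,
      intervalIntegral.integral_eq_sub_of_hasDerivAt (fun z _ => hH z)
        (hcont.intervalIntegrable _ _)]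
    have h2 : ct e sg (x, y, A + e / s) ≤ 1 := ct_le _ _ _
    have h3 : 0 ≤ ct e sg (x, y, A) := ct_nonneg _ _ _
    rw [← ENNReal.ofReal_one]
    exact ENNReal.ofReal_le_ofReal (by linarith)
  · exact (hcont.integrableOn_Icc).mono_set Ioc_subset_Icc_self
  · exact Eventually.of_forall fun z => Hs_nonneg he _ _

end Helper47.MEI
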