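import Pool.Agent.Helper47.MEI.S3b

/-!
# Project MEI, regime I: the shadow lemma for the slabs
-/

namespace Helper47.MEI

open Set MeasureTheory Filter Topology
open Helper22.MEI Helper22.Sig
open scoped ENNReal ContDiff

/-- star function -/
noncomputable def Sf (q : ℝ × ℝ × ℝ) : ℝ :=
  q.1 ^ 2 + (q.2.1 ^ 2 + (q.2.2 - t) ^ 2) + (√2 * (q.2.2 - t) + |q.2.1|)

/-- spindle function -/
noncomputable def Xf (q : ℝ × ℝ × ℝ) : ℝ :=
  q.1 ^ 2 + (q.2.1 ^ 2 + (q.2.2 - t) ^ 2) + √3 * √(q.2.1 ^ 2 + (q.2.2 - t) ^ 2)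

theorem Sf_le_Xf (q : ℝ × ℝ × ℝ) : Sf q ≤ Xf q := by
  have := Helper78.MEI.le_r3 q.2.1 (q.2.2 - t)
  unfold Sf Xf
  linarith

theorem s_mul : √2 * s = 1 := by
  unfold s
  have h : √2 * √2 = (2 : ℝ) := Real.mul_self_sqrt (by norm_num)
  linarith

/-- pointwise facts in the slab -/
theorem slab_pt {e sg τ η : ℝ} (he : 0 < e) (he1 : e ≤ 0.01) (hτ1 : τ ≤ 0.002)
    (hsg : sg = 1 ∨ sg = -1) {q : ℝ × ℝ × ℝ} (h1 : 0 < lw sg q) (h2 : lw sg q < e)
    (hy : 0 ≤ sg * q.2.1) (hS : Sf q ≤ 1 / 4 + τ) (hX : 1 / 4 - η ≤ Xf q) :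
    1 / 4 - q.1 ^ 2 - η - 3 * e ≤ 3 * (sg * q.2.1) + 3 * q.2.1 ^ 2 ∧
      3 * (sg * q.2.1) + 3 * q.2.1 ^ 2 ≤ 1 / 4 - q.1 ^ 2 - η - 3 * e + (τ + η + 3 * e) := by
  have hss := s_mul
  have h2p : √2 * √2 = (2 : ℝ) := Real.mul_self_sqrt (by norm_num)
  have h3p : √3 * √3 = (3 : ℝ) := Real.mul_self_sqrt (by norm_num)
  have hs2 : (0 : ℝ) < √2 := by positivity
  have habs : |q.2.1| = sg * q.2.1 := by
    rcases hsg with rfl | rfl
    · rw [one_mul] at hy ⊢; exact abs_of_nonneg hy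
    · rw [abs_of_nonpos (by linarith)]; ring
  have hsq : q.2.1 ^ 2 = (sg * q.2.1) ^ 2 := by
    rcases hsg with rfl | rfl <;> ring
  unfold Sf at hS
  unfold Xf at hX
  rw [habs] at hS
  unfold lw at h1 h2
  set Y := sg * q.2.1 with hY
  set w := q.2.2 - t with hw
  rw [hsq] at hS hX ⊢
  set l := s * w - Y with hl
  have hwl : w = √2 * (Y + l) := by
    have : √2 * (Y + l) = (√2 * s) * w := by rw [hl]; ring
    rw [this, hss, one_mul]
  have hw2 : w ^ 2 = 2 * (Y + l) ^ 2 := by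
    rw [hwl]; linear_combination (Y + l) ^ 2 * h2p
  have hw3 : √2 * w = 2 * (Y + l) := by
    rw [hwl]; linear_combination (Y + l) * h2p
  have hup : q.1 ^ 2 + 3 * Y ^ 2 + 3 * Y ≤ 1 / 4 + τ := by
    rw [hw2, hw3] at hS
    nlinarith [mul_nonneg hy h1.le, sq_nonneg l]
  have hY1 : Y ≤ 0.1 := by
    by_contra hc
    push Not at hc
    nlinarith [sq_nonneg q.1]
  constructor
  · -- lower bound
    have hr : √(Y ^ 2 + w ^ 2) ≤ √3 * Y + √2 * l := by
      refine Real.sqrt_le_iff.2 ⟨by positivity, ?_⟩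
      rw [hw2]
      have h6 : 2 ≤ √3 * √2 := by
        rw [← Real.sqrt_mul (by norm_num)]
        refine Real.le_sqrt_of_sq_le ?_
        norm_num
      have e1 : (√3 * Y + √2 * l) ^ 2 = 3 * Y ^ 2 + 2 * (√3 * √2) * (Y * l) + 2 * l ^ 2 := by
        linear_combination Y ^ 2 * h3p + l ^ 2 * h2p
      rw [e1]
      nlinarith [mul_nonneg hy h1.le]
    have hr2 : √3 * √(Y ^ 2 + w ^ 2) ≤ 3 * Y + 2.5 * l := by
      have h7 := mul_le_mul_of_nonneg_left hr (Real.sqrt_nonneg (3 : ℝ))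
      have h8 : √3 * √2 ≤ 2.5 := by
        rw [← Real.sqrt_mul (by norm_num)]
        refine Real.sqrt_le_iff.2 ⟨by norm_num, by norm_num⟩
      have e1 : √3 * (√3 * Y + √2 * l) = 3 * Y + (√3 * √2) * l := by
        linear_combination Y * h3p
      rw [e1] at h7
      nlinarith
    rw [hw2] at hX
    rw [hw2] at hr2
    nlinarith [mul_nonneg hy h1.le, mul_nonneg (sub_nonneg.2 hY1) h1.le,
      mul_nonneg h1.le (sub_nonneg.2 h2.le)]
  · linarith

/-- the strip near the edge line -/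
def strip (e : ℝ) : Set (ℝ × ℝ) := Icc (-(1 / 2 : ℝ)) (1 / 2) ×ˢ Icc (-e) e

theorem vol_strip {e : ℝ} (he : 0 < e) : volume (strip e) = ENNReal.ofReal (2 * e) := by
  unfold strip
  rw [Measure.volume_eq_prod, Measure.prod_prod, Real.volume_Icc, Real.volume_Icc,
    ← ENNReal.ofReal_mul (by norm_num)]
  congr 1
  ring

/-- **shadow lemma** -/
theorem shadow {S : Set (ℝ × ℝ × ℝ)} (hSm : MeasurableSet S) {e sg τ : ℝ} {η : ℝ → ℝ}
    (he : 0 < e) (he1 : e ≤ 0.01) (hτ0 : 0 ≤ τ) (hτ1 : τ ≤ 0.002) (hsg : sg = 1 ∨ sg = -1)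
    (hη : Continuous η) (hη0 : ∀ x, |x| ≤ 1 / 2 → 0 ≤ η x)
    (h : ∀ q ∈ S, q ∈ Zc ∧ |q.1| ≤ 1 / 2 ∧ (0 ≤ sg * q.2.1 → Sf q ≤ 1 / 4 + τ) ∧
      1 / 4 - η q.1 ≤ Xf q) :
    ∫⁻ q in S, ENNReal.ofReal (Hs e sg q) ≤
      ENNReal.ofReal ((∫ x in (-(1 / 2 : ℝ))..(1 / 2), (τ + η x + 3 * e) / 3) + 2 * e) := by
  set a : ℝ → ℝ := fun x => 1 / 4 - x ^ 2 - η x - 3 * e with ha
  set L : ℝ → ℝ := fun x => τ + η x + 3 * e with hL
  have hac : Continuous a := by rw [ha]; fun_prop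
  have hLc : Continuous L := by rw [hL]; fun_prop
  have hL0 : ∀ x, |x| ≤ 1 / 2 → 0 ≤ L x := by
    intro x hx
    have := hη0 x hx
    rw [hL]
    simp only
    linarith
  have hPm : MeasurableSet (shd a L sg ∪ strip e) :=
    (shd_closed hac hLc sg).measurableSet.union (measurableSet_Icc.prod measurableSet_Icc)
  have h1 := proj_bound hSm (H := fun q => ENNReal.ofReal (Hs e sg q))
    (ENNReal.measurable_ofReal.comp (Hs_cont e sg).measurable) (fun x y => Hs_fib he sg x y)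
    hPm (fun q hq hne => by
      have hne' : Hs e sg q ≠ 0 := by
        intro h0
        simp only [h0, ENNReal.ofReal_zero, ne_eq, not_true_eq_false] at hne
      obtain ⟨l1, l2⟩ := Hs_supp he hne'
      obtain ⟨k1, k2, k3, k4⟩ := h q hq
      by_cases hy : 0 ≤ sg * q.2.1
      · left
        have := slab_pt he he1 hτ1 hsg l1 l2 hy (k3 hy) k4
        exact ⟨k2, hy, this.1, this.2⟩
      · right
        push Not at hy
        unfold lw at l1 l2
        have k5 : |q.2.1| < s * (q.2.2 - t) := k1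
        have k6 : |q.2.1| = -(sg * q.2.1) := by
          rcases hsg with rfl | rfl
          · rw [one_mul] at hy ⊢; exact abs_of_neg hy
          · rw [abs_of_pos (by linarith)]; ring
        have k7 : |q.2.1| ≤ e := by
          have := abs_nonneg q.2.1
          linarith
        exact ⟨abs_le.1 k2, abs_le.1 k7⟩)
  refine h1.trans ((measure_union_le _ _).trans ?_)
  have h2 := area_shadow hsg hac hLc hL0
  have h3 := vol_strip he
  rw [h3]
  have h4 : 0 ≤ ∫ x in (-(1 / 2 : ℝ))..(1 / 2), L x / 3 := by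
    apply intervalIntegral.integral_nonneg (by norm_num)
    intro x hx
    have := hL0 x (abs_le.2 hx)
    positivity
  rw [ENNReal.ofReal_add h4 (by positivity)]
  exact add_le_add h2 le_rfl

/-- real version -/
theorem shadow_real {S : Set (ℝ × ℝ × ℝ)} (hSm : MeasurableSet S) {e sg τ : ℝ} {η : ℝ → ℝ}
    (he : 0 < e) (he1 : e ≤ 0.01) (hτ0 : 0 ≤ τ) (hτ1 : τ ≤ 0.002) (hsg : sg = 1 ∨ sg = -1)
    (hη : Continuous η) (hη0 : ∀ x, |x| ≤ 1 / 2 → 0 ≤ η x)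
    (h : ∀ q ∈ S, q ∈ Zc ∧ |q.1| ≤ 1 / 2 ∧ (0 ≤ sg * q.2.1 → Sf q ≤ 1 / 4 + τ) ∧
      1 / 4 - η q.1 ≤ Xf q) :
    IntegrableOn (Hs e sg) S ∧ ∫ q in S, Hs e sg q ≤
      (∫ x in (-(1 / 2 : ℝ))..(1 / 2), (τ + η x + 3 * e) / 3) + 2 * e := by
  have h1 := shadow hSm he he1 hτ0 hτ1 hsg hη hη0 h
  have hnn : 0 ≤ (∫ x in (-(1 / 2 : ℝ))..(1 / 2), (τ + η x + 3 * e) / 3) + 2 * e := by
    have h4 : 0 ≤ ∫ x in (-(1 / 2 : ℝ))..(1 / 2), (τ + η x + 3 * e) / 3 := by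
      apply intervalIntegral.integral_nonneg (by norm_num)
      intro x hx
      have := hη0 x (abs_le.2 hx)
      positivity
    positivity
  have hi : IntegrableOn (Hs e sg) S := by
    refine ⟨(Hs_cont e sg).aestronglyMeasurable, ?_⟩
    rw [hasFiniteIntegral_iff_ofReal (Eventually.of_forall fun q => Hs_nonneg he sg q)]
    exact h1.trans_lt ENNReal.ofReal_lt_top
  refine ⟨hi, ?_⟩
  rw [← ofReal_integral_eq_lintegral_ofReal hi
    (Eventually.of_forall fun q => Hs_nonneg he sg q)] at h1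
  exact (ENNReal.ofReal_le_ofReal_iff hnn).1 h1

end Helper47.MEI
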