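import Pool.Agent.Helper47.MEI.S3c

/-!
# Project MEI, regime I: the reference identity (R*)
-/

namespace Helper47.MEI

open Set MeasureTheory Filter Topology Metric
open Helper80.CW Helper82.CW
open Helper22.MEI Helper22.Sig Helper22.Wedge
open scoped ENNReal ContDiff RealInnerProductSpace

/-- smooth function which is positive exactly on the unit ball around `a` -/
noncomputable def bet (a : E3) (x : E3) : ℝ := 2 - √(3 + ‖x - a‖ ^ 2)

theorem bet_pos (a x : E3) : 0 < bet a x ↔ ‖x - a‖ < 1 := by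
  unfold bet
  rw [sub_pos, Real.sqrt_lt' (by norm_num)]
  constructor
  · intro h
    have h1 : ‖x - a‖ ^ 2 < 1 ^ 2 := by linarith
    exact lt_of_pow_lt_pow_left₀ 2 (by norm_num) h1
  · intro h
    have h0 := norm_nonneg (x - a)
    nlinarith

theorem bet_hasFDerivAt (a x : E3) : HasFDerivAt (bet a)
    (-((1 / √(3 + ‖x - a‖ ^ 2)) • innerSL ℝ (x - a))) x := by
  have h0 : HasFDerivAt (fun y : E3 => y - a) (ContinuousLinearMap.id ℝ E3) x :=
    (hasFDerivAt_id (𝕜 := ℝ) x).sub_const a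
  have h1 : HasFDerivAt (fun y : E3 => ‖y - a‖ ^ 2) (2 • (innerSL ℝ (x - a)).comp
      (ContinuousLinearMap.id ℝ E3)) x := h0.norm_sq
  have hpos : (3 + ‖x - a‖ ^ 2 : ℝ) ≠ 0 := by positivity
  have h2 := ((h1.const_add 3).sqrt hpos).const_sub 2
  refine h2.congr_fderiv ?_
  ext v
  simp only [neg_apply, smul_apply, smul_eq_mul,
    ContinuousLinearMap.comp_apply, ContinuousLinearMap.id_apply, nsmul_eq_mul]
  push_cast
  have h3 : √(3 + ‖x - a‖ ^ 2) ≠ 0 := by positivity
  field_simp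

theorem bet_diff (a : E3) : Differentiable ℝ (bet a) :=
  fun x => (bet_hasFDerivAt a x).differentiableAt

theorem bet_fd (a x v : E3) :
    fderiv ℝ (bet a) x v = -(⟪x - a, v⟫ / √(3 + ‖x - a‖ ^ 2)) := by
  rw [(bet_hasFDerivAt a x).fderiv]
  simp only [neg_apply, smul_apply, smul_eq_mul,
    innerSL_apply_apply]
  ring

theorem bet_lip (a : E3) : LipschitzWith 1 (bet a) := by
  refine LipschitzWith.of_dist_le_mul fun x y => ?_
  rw [Real.dist_eq, NNReal.coe_one, one_mul, dist_eq_norm]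
  unfold bet
  have h1 : |‖y - a‖ - ‖x - a‖| ≤ ‖x - y‖ := by
    have := abs_norm_sub_norm_le (y - a) (x - a)
    rw [sub_sub_sub_cancel_right, norm_sub_rev y x] at this
    exact this
  set r := ‖x - a‖
  set q := ‖y - a‖
  have hr : 0 ≤ r := norm_nonneg _
  have hq : 0 ≤ q := norm_nonneg _
  have e1 : 2 - √(3 + r ^ 2) - (2 - √(3 + q ^ 2)) = √(3 + q ^ 2) - √(3 + r ^ 2) := by ring
  rw [e1]
  refine le_trans ?_ h1
  have hR : r ≤ √(3 + r ^ 2) := Real.le_sqrt_of_sq_le (by linarith)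
  have hQ : q ≤ √(3 + q ^ 2) := Real.le_sqrt_of_sq_le (by linarith)
  have hR2 : √(3 + r ^ 2) ^ 2 = 3 + r ^ 2 := Real.sq_sqrt (by positivity)
  have hQ2 : √(3 + q ^ 2) ^ 2 = 3 + q ^ 2 := Real.sq_sqrt (by positivity)
  have hR0 : 0 < √(3 + r ^ 2) := by positivity
  have hQ0 : 0 < √(3 + q ^ 2) := by positivity
  have hprod : (√(3 + q ^ 2) - √(3 + r ^ 2)) * (√(3 + q ^ 2) + √(3 + r ^ 2)) =
      (q - r) * (q + r) := by nlinarith
  rw [abs_le]
  rcases le_total r q with h | h
  · have h5 : 0 ≤ q - r := by linarith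
    rw [abs_of_nonneg h5]
    constructor
    · by_contra hc
      push Not at hc
      nlinarith
    · by_contra hc
      push Not at hc
      nlinarith
  · have h5 : q - r ≤ 0 := by linarith
    rw [abs_of_nonpos h5]
    constructor
    · by_contra hc
      push Not at hc
      nlinarith
    · by_contra hc
      push Not at hc
      nlinarith

section
variable (b : OrthonormalBasis (Fin 3) ℝ E3) (c : E3)

/-- the cut-off field -/
noncomputable def Wa (e : ℝ) (q : ℝ × ℝ × ℝ) : ℝ := chi e q * Ga q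
noncomputable def Wb (e : ℝ) (q : ℝ × ℝ × ℝ) : ℝ := chi e q * Gb q
noncomputable def Wc (e : ℝ) (q : ℝ × ℝ × ℝ) : ℝ := chi e q * Gc q

theorem Wa_cd (e : ℝ) : ContDiff ℝ 1 (Wa e) := ((chi_cd e).of_le (by simp)).mul Ga_cd
theorem Wb_cd (e : ℝ) : ContDiff ℝ 1 (Wb e) := ((chi_cd e).of_le (by simp)).mul Gb_cd
theorem Wc_cd (e : ℝ) : ContDiff ℝ 1 (Wc e) := ((chi_cd e).of_le (by simp)).mul Gc_cd

/-- pointwise: `⟨V, p - a_j⟩ = - (z + t) (|p - a_j|² - 1) / D` -/
theorem V_tan (x y z y0 : ℝ) (hy0 : y0 ^ 2 = 1 / 4) :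
    Ga (x, y, z) * x + Gb (x, y, z) * (y - y0) + Gc (x, y, z) * (z + t) =
      -((z + t) * (x ^ 2 + (y - y0) ^ 2 + (z + t) ^ 2 - 1) / FD (x, y, z)) := by
  have hD := (FD_pos (x, y, z)).ne'
  have ht := Helper78.MEI.t_sq
  have hDe : FD (x, y, z) = 1 / 4 + x ^ 2 / 8 + (y ^ 2 + (z - t) ^ 2) := rfl
  unfold Ga Gb Gc Fa Fb Fc
  simp only
  field_simp
  rw [hDe]
  linear_combination (z + t) * (64 * hy0 + 256 * ht)

theorem inner_fld (F1 F2 F3 : ℝ × ℝ × ℝ → ℝ) (x a : E3) :
    ⟪x - a, fld b c F1 F2 F3 x⟫ = F1 (co b c x) * ((co b c x).1 - (co b c a).1) +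
      F2 (co b c x) * ((co b c x).2.1 - (co b c a).2.1) +
      F3 (co b c x) * ((co b c x).2.2 - (co b c a).2.2) := by
  unfold fld
  rw [inner_add_right, inner_add_right, real_inner_smul_right, real_inner_smul_right,
    real_inner_smul_right, real_inner_comm (b 0), real_inner_comm (b 1), real_inner_comm (b 2),
    Helper78.MEI.b_sub b c 0, Helper78.MEI.b_sub b c 1, Helper78.MEI.b_sub b c 2]
  rfl

/-- tangency of the cut-off field on the two spheres -/
theorem W_tan {a x : E3} {e y0 : ℝ} (ha : co b c a = (0, y0, -t)) (hy0 : y0 ^ 2 = 1 / 4)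
    (hx : ‖x - a‖ < 1) :
    |fderiv ℝ (bet a) x (fld b c (Wa e) (Wb e) (Wc e) x)| ≤ 12 * bet a x := by
  have hb := (bet_pos a x).2 hx
  rw [bet_fd, inner_fld, ha]
  have hn := norm_co b c x a
  rw [ha] at hn
  simp only at hn ⊢
  set q := co b c x with hq
  have h1 := V_tan q.1 q.2.1 q.2.2 y0 hy0
  have h2 : Wa e q * (q.1 - 0) + Wb e q * (q.2.1 - y0) + Wc e q * (q.2.2 - -t) =
      -(chi e q * ((q.2.2 + t) * (‖x - a‖ ^ 2 - 1) / FD q)) := by
    have h3 : Ga q * q.1 + Gb q * (q.2.1 - y0) + Gc q * (q.2.2 + t) =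
      -((q.2.2 + t) * (q.1 ^ 2 + (q.2.1 - y0) ^ 2 + (q.2.2 + t) ^ 2 - 1) / FD q) := h1
    have h4 : ‖x - a‖ ^ 2 = q.1 ^ 2 + (q.2.1 - y0) ^ 2 + (q.2.2 + t) ^ 2 := by
      rw [hn]; ring
    rw [h4]
    unfold Wa Wb Wc
    linear_combination chi e q * h3
  rw [h2]
  set R := √(3 + ‖x - a‖ ^ 2) with hR
  have hR2 : R ^ 2 = 3 + ‖x - a‖ ^ 2 := Real.sq_sqrt (by positivity)
  have hR1 : 1 ≤ R := by
    rw [hR]
    refine Real.le_sqrt_of_sq_le ?_
    nlinarith [sq_nonneg ‖x - a‖]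
  have hbe : bet a x = 2 - R := rfl
  have hQ : ‖x - a‖ ^ 2 - 1 = -(bet a x * (2 + R)) := by
    rw [hbe]; linear_combination -hR2
  have hz : |q.2.2 + t| ≤ 1 := by
    apply abs_le_of_sq_le_sq _ (by norm_num)
    have h5 : (q.2.2 + t) ^ 2 ≤ ‖x - a‖ ^ 2 := by
      rw [hn]
      nlinarith [sq_nonneg (q.1 - 0), sq_nonneg (q.2.1 - y0)]
    have h6 : ‖x - a‖ ^ 2 ≤ 1 := by
      have := norm_nonneg (x - a)
      nlinarith
    linarith
  have hD := Helper78.MEI.FD_ge q
  have hD0 := FD_pos q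
  have hc0 := chi_nonneg e q
  have hc1 := chi_le e q
  have hR0 : 0 < R := by linarith
  rw [hQ]
  have e1 : -(-(chi e q * ((q.2.2 + t) * -(bet a x * (2 + R)) / FD q)) / R) =
      -((chi e q * (q.2.2 + t)) * (bet a x * ((2 + R) / (FD q * R)))) := by
    field_simp
  rw [e1, abs_neg, abs_mul, abs_mul, abs_mul, abs_of_nonneg hc0, abs_of_pos hb]
  have h7 : |(2 + R) / (FD q * R)| ≤ 12 := by
    rw [abs_of_nonneg (by positivity), div_le_iff₀ (by positivity)]
    nlinarith
  calc chi e q * |q.2.2 + t| * (bet a x * |(2 + R) / (FD q * R)|) ≤ 1 * 1 * (bet a x * 12) := by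
        apply mul_le_mul
        · exact mul_le_mul hc1 hz (abs_nonneg _) (by norm_num)
        · exact mul_le_mul_of_nonneg_left h7 hb.le
        · positivity
        · norm_num
    _ = 12 * bet a x := by ring

/-- the lens -/
def lens (a3 a4 : E3) : Set E3 := {x | ‖x - a3‖ < 1 ∧ ‖x - a4‖ < 1}

/-- **(R*)** in space -/
theorem ref_lens {a3 a4 : E3} (ha3 : co b c a3 = (0, 1 / 2, -t))
    (ha4 : co b c a4 = (0, -(1 / 2), -t)) (e : ℝ) :
    ∫ x in lens a3 a4, dv (Wa e) (Wb e) (Wc e) (co b c x) = 0 := by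
  -- cut-off equal to one near the lens
  let B : ContDiffBump a3 := ⟨2, 3, by norm_num, by norm_num⟩
  have hB1 : ∀ x ∈ closedBall a3 2, B x = 1 := fun x hx => B.one_of_mem_closedBall hx
  obtain ⟨Kχ, hKχ⟩ := (B.contDiff (n := 1)).lipschitzWith_of_hasCompactSupport B.hasCompactSupport
    (by simp)
  set a : Bool → E3 → ℝ := fun j => if j then bet a3 else bet a4 with ha
  have hl : LipschitzWith 1 (fun x => min (bet a3 x) (bet a4 x)) := by
    have := (bet_lip a3).min (bet_lip a4)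
    simpa using this
  have key := cell_eq (μ := volume) (l := fun x => min (bet a3 x) (bet a4 x))
    (χ := fun x => B x) (a := a) (φ := cmp b c (Wa e) (Wb e) (Wc e)) (v := fun k => b k)
    hl hKχ B.hasCompactSupport (fun x => B.nonneg) (cmp_cd b c (Wa_cd e) (Wb_cd e) (Wc_cd e))
    (fun y j => by
      cases j
      · exact min_le_right _ _
      · exact min_le_left _ _) (fun y => by
      rcases le_total (bet a3 y) (bet a4 y) with h | h
      · exact ⟨true, min_eq_left h⟩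
      · exact ⟨false, min_eq_right h⟩) (fun j => by
      cases j
      · exact bet_diff a4
      · exact bet_diff a3) (C := 12) (fun x j _ hj => by
      have e0 : ∀ L : E3 →L[ℝ] ℝ, ∑ k, cmp b c (Wa e) (Wb e) (Wc e) k x * L (b k) =
          L (fld b c (Wa e) (Wb e) (Wc e) x) := by
        intro L
        rw [Fin.sum_univ_three]
        unfold fld
        rw [map_add, map_add, map_smul, map_smul, map_smul]
        rfl
      rw [e0]
      cases j
      · exact W_tan b c ha4 (by norm_num) ((bet_pos a4 x).1 hj)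
      · exact W_tan b c ha3 (by norm_num) ((bet_pos a3 x).1 hj))
  have hset : {x : E3 | 0 < min (bet a3 x) (bet a4 x)} = lens a3 a4 := by
    ext x
    unfold lens
    simp only [mem_ofPred_eq, lt_min_iff, bet_pos]
  rw [hset] at key
  refine Eq.trans ?_ key
  have hopen : IsOpen (lens a3 a4) := by
    rw [← hset]
    exact isOpen_lt continuous_const (hl.continuous)
  refine setIntegral_congr_fun hopen.measurableSet fun x hx => ?_
  rw [GG_fld b c (Wa_cd e) (Wb_cd e) (Wc_cd e)]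
  have hev : (fun y => B y) =ᶠ[𝓝 x] fun _ => (1 : ℝ) := by
    filter_upwards [hopen.mem_nhds hx] with y hy
    apply hB1
    rw [mem_closedBall, dist_eq_norm]
    linarith [hy.1]
  have h1 : fderiv ℝ (fun y => B y) x = 0 := by
    rw [hev.fderiv_eq]
    simp
  have h2 : B x = 1 := hev.self_of_nhds
  rw [h1, h2]
  simp

end

end Helper47.MEI
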